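import Mathlib.Data.Nat.Notation

set_option autoImplicit false

/-!
# Four parts: the table for the tail (program)

Written with raw recursors and raw operations on `Nat` (fast in the kernel).
-/

namespace Pool.Agent.Work.MP_122e00_nt.Four.Tb

noncomputable section

/-- quotient, rounded up -/
def cdiv (a b : ℕ) : ℕ := Nat.div (Nat.add a (Nat.sub b 1)) b

/-- `(a + 1) ^ 4 - a ^ 4` -/
def w4 (a : ℕ) : ℕ := Nat.sub (Nat.pow (Nat.succ a) 4) (Nat.pow a 4)

/-- The prefix sums `S_a, S_{a + 1}, …` of the list `U = [U_a, U_{a + 1}, …]`, `s = S_a`. -/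
def ps (U : List ℕ) : ℕ → ℕ → List ℕ :=
  @List.rec ℕ (fun _ => ℕ → ℕ → List ℕ) (fun _ s => [s])
    (fun u _ ih a s => List.cons s (ih (Nat.succ a) (Nat.add s (Nat.mul (w4 a) u)))) U

/-- drop -/
def dr (n : ℕ) (l : List ℕ) : List ℕ :=
  @Nat.rec (fun _ => List ℕ → List ℕ) (fun l => l)
    (fun _ ih l => ih (@List.rec ℕ (fun _ => List ℕ) [] (fun _ t _ => t) l)) n l

/-- head -/
def hd (l : List ℕ) : ℕ := @List.rec ℕ (fun _ => ℕ) 0 (fun a _ _ => a) l

/-- tail -/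
def tl (l : List ℕ) : List ℕ := @List.rec ℕ (fun _ => List ℕ) [] (fun _ t _ => t) l

/-- The quotients `(S_a - S_{a - N}) / a ^ 4`, rounded up; the first list starts with `S_a`, the
second one with `S_{a - N}`. -/
def qs (P : List ℕ) : List ℕ → ℕ → List ℕ :=
  @List.rec ℕ (fun _ => List ℕ → ℕ → List ℕ) (fun _ _ => [])
    (fun s _ ih Q a => List.cons (cdiv (Nat.sub s (hd Q)) (Nat.pow a 4)) (ih (tl Q) (Nat.succ a))) P

/-- `n` copies of `c` in front of `l` -/
def rp (c n : ℕ) (l : List ℕ) : List ℕ :=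
  @Nat.rec (fun _ => List ℕ) l (fun _ ih => List.cons c ih) n

/-- The next row of the table: `U` has the entries `0, 1, …, M`. -/
def nx (N Sc : ℕ) (U : List ℕ) : List ℕ :=
  (fun P => rp Sc (Nat.succ N) (qs (dr (Nat.succ N) P) (tl P) (Nat.succ N))) (ps U 0 0)

/-- The table: row `k`. -/
def tbl (N Sc M k : ℕ) : List ℕ :=
  @Nat.rec (fun _ => List ℕ) (rp Sc (Nat.succ M) []) (fun _ ih => nx N Sc ih) k

/-- The sum of the cells `a, a + 1, …`: the test that the total is at most `r`. -/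
def sums (j N Sc : ℕ) (U : List ℕ) : ℕ → ℕ → ℕ → Bool :=
  @List.rec ℕ (fun _ => ℕ → ℕ → ℕ → Bool) (fun _ s r => Nat.ble s r)
    (fun u _ ih a s r => cond (Nat.ble s r) (ih (Nat.succ a)
      (Nat.add s (cdiv (Nat.mul (Nat.mul (Nat.pow 10 20) u)
        (Nat.mul (Nat.pow (Nat.sub (Nat.mul 100 (Nat.succ a)) (Nat.mul (Nat.mul 199 N) j)) (Nat.sub j 1))
          (Nat.pow (Nat.sub (Nat.mul 299 (Nat.succ a)) (Nat.mul (Nat.mul 199 N) j)) 3)))
        (Nat.mul (Nat.mul Sc (Nat.mul a (Nat.pow (Nat.succ a) 3)))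
          (Nat.mul (Nat.pow 299 3) (Nat.pow (Nat.mul 199 N) (Nat.sub j 1)))))) r) false) U

end

end Pool.Agent.Work.MP_122e00_nt.Four.Tb
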