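import Pool.Agent.Work.MP_122e00_nt.Sharp.Defs

set_option autoImplicit false

/-!
# The two-sided scheme for four parts (`r = 4`): definitions

Constant weight `2` on the level `1 / 2 - θ`; homogeneous coordinates `(x, h)` with `k` marks and
four parts; sorted simplices.  The tail: sizes of the marks of `k` successive picks.
-/

namespace Pool.Agent.Work.MP_122e00_nt.Four

open Finset Filter Topology MeasureTheory

open scoped ENNReal

open Two Gen Sharp

/-! ### four parts: homogeneous coordinates `(x, h)` and sorted simplices -/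

/-- The marks of a point with `k` marks and four parts. -/
def px {k : ℕ} (p : Fin (k + 4) → ℝ) : Fin k → ℝ := fun i => p (Fin.castAdd 4 i)

/-- The parts of a point with `k` marks and four parts. -/
def ph {k : ℕ} (p : Fin (k + 4) → ℝ) : Fin 4 → ℝ := fun i => p (Fin.natAdd k i)

/-- The vertices of the sorted simplex. -/
noncomputable def V0 (k : ℕ) (i : Fin (k + 4)) (j : Fin (k + 4)) : ℝ :=
  if i.val < k then (if j.val ≤ i.val then 1 / ((i.val : ℝ) + 1) else 0)
  else (if k ≤ j.val ∧ j.val ≤ i.val then 1 / ((i.val : ℝ) - k + 1) else 0)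

/-- The vertices of the sorted simplex, the last one being `none`. -/
noncomputable def V1 (k : ℕ) : Option (Fin (k + 3)) → Fin (k + 4) → ℝ
  | some i => V0 k i.castSucc
  | none => V0 k (Fin.last (k + 3))

/-- The constant weight `2` for four parts. -/
noncomputable def g4 (θ : ℝ) : (Fin 4 → ℝ) → ℝ := gs (psw 2 0 3 θ)

/-- The integrand for `k` marks, none hidden. -/
noncomputable def Jf (m k : ℕ) (R : ℝ) (p : Fin (k + 4) → ℝ) : ℝ :=
  Qs k m (px p) * pg R (4 ^ k) (Pl (g4 0) (px p) (ph p))

/-- The density for `T` visible marks, the bound with `b` big parts. -/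
noncomputable def Pb (m b : ℕ) {k : ℕ} (p : Fin (k + 1 + 4) → ℝ) : ℝ :=
  ∑ t ∈ Finset.range (m + 1), (m.choose t : ℝ) * Qs (k + 1) (m - t) (px p) *
    Bt b t (∑ q : Fin 4, if b ≤ q.val then ph p q else 0) (px p (Fin.last k))

/-- The density for `T` visible marks: the minimum of the five bounds. -/
noncomputable def Pm (m : ℕ) {k : ℕ} (p : Fin (k + 1 + 4) → ℝ) : ℝ :=
  min (min (min (Pb m 0 p) (Pb m 1 p)) (min (Pb m 2 p) (Pb m 3 p))) (Pb m 4 p)

/-- The integrand for `k + 1` visible marks, the others hidden. -/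
noncomputable def Jh (m k : ℕ) (R : ℝ) (p : Fin (k + 1 + 4) → ℝ) : ℝ :=
  Pm m p * pg R (4 ^ (k + 1)) (Pl (g4 0) (px p) (ph p))

/-- The integral over the sorted simplex, no mark hidden. -/
noncomputable def Jk (m k : ℕ) (R : ℝ) : ℝ≥0∞ :=
  ENNReal.ofReal (1 / (k.factorial : ℝ)) *
    Chamber.EV (V1 k) fun p => ENNReal.ofReal (Jf m k R p)

/-- The integral over the sorted simplex, with hidden marks. -/
noncomputable def JH (m k : ℕ) (R : ℝ) : ℝ≥0∞ :=
  ENNReal.ofReal (1 / ((k + 1).factorial : ℝ)) *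
    Chamber.EV (V1 (k + 1)) fun p => ENNReal.ofReal (Jh m k R p)

/-! ### the tail -/

/-- The density of the first pick `y` out of the total `R`. -/
noncomputable def wt (R y : ℝ) : ℝ≥0∞ := ENNReal.ofReal (4 / R * ((R - y) / R) ^ 3)

open Classical in
/-- The density of `k` successive picks out of the total `R`. -/
noncomputable def PW : (k : ℕ) → ℝ → (Fin k → ℝ) → ℝ≥0∞
  | 0, _, _ => 1
  | k + 1, R, x => if 0 < x 0 ∧ x 0 < R then wt R (x 0) * PW k (R - x 0) (Fin.tail x) else 0

/-- The probability that `k` picks out of the total `R` are all at most `z`. -/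
noncomputable def AA (z : ℝ) : ℕ → ℝ → ℝ≥0∞
  | 0, _ => 1
  | k + 1, R => ∫⁻ y in Set.Ioo 0 R ∩ Set.Iic z, wt R y * AA z k (R - y)

open Classical in
/-- The number of big marks is `i`, their total is less than `c`. -/
noncomputable def Ind (z : ℝ) (i : ℕ) (c : ℝ) {k : ℕ} (x : Fin k → ℝ) : ℝ≥0∞ :=
  if (Finset.univ.filter fun l => z < x l).card = i ∧
    ∑ l ∈ Finset.univ.filter (fun l => z < x l), x l < c then 1 else 0

open Classical in
/-- The integral of `φ (∑ y)` over `i` big marks of total less than `c`, with the weight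
`1 / (i! ∏ y)`. -/
noncomputable def Wo (z : ℝ) : ℕ → ℝ → (ℝ → ℝ≥0∞) → ℝ≥0∞
  | 0, c, φ => if 0 < c then φ 0 else 0
  | i + 1, c, φ => ENNReal.ofReal (1 / ((i : ℝ) + 1)) *
      ∫⁻ y in Set.Ioi z, ENNReal.ofReal (1 / y) * Wo z i (c - y) fun σ => φ (σ + y)

/-- The bound for the volume: `j` marks of total less than `c`, the smallest of them is `z`, all
other marks (`m` of them) are at most `z`. -/
noncomputable def Fj (j m : ℕ) (c : ℝ) : ℝ≥0∞ :=
  ENNReal.ofReal (4 ^ j / ((j - 1).factorial : ℝ) ^ 2) *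
    ∫⁻ z in Set.Ioo 0 (c / j), ENNReal.ofReal ((c - j * z) ^ (j - 1) / z ^ j * (1 - j * z) ^ 3) *
      AA z m (1 - c)

end Pool.Agent.Work.MP_122e00_nt.Four
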