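import Pool.Agent.Work.MP_122e00_nt.Sharp.Stmts
import Pool.Agent.Work.MP_122e00_nt.Four.Defs

set_option autoImplicit false

/-!
# Four parts: the limit functionals (compare `Sharp.claimI13`, …, `Sharp.claimI16`)
-/

namespace Pool.Agent.Work.MP_122e00_nt.Four

open Finset Filter Topology MeasureTheory

open scoped ENNReal

open Two Gen Sharp

/-- The vertices of the simplex with sorted marks and unsorted parts. -/
noncomputable def VU (k : ℕ) (o : Option (Fin (k + 3))) (j : Fin (k + 4)) : ℝ :=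
  match o with
  | some i => if i.val < k then (if j.val ≤ i.val then 1 / ((i.val : ℝ) + 1) else 0)
    else (if j.val = i.val then 1 else 0)
  | none => if j.val = k + 3 then 1 else 0

/-- I13: the simplex with sorted marks, in coordinates: Jacobian `1 / k!`. -/
def claimI13 : Prop := ∀ (k : ℕ) (G : (Fin (k + 4) → ℝ) → ℝ≥0∞), Measurable G →
    ∫⁻ y in Sim k 3 ∩ {y | xs y ∈ Srt k}, G (Fin.append (xs y) (vs y)) =
      ENNReal.ofReal (1 / (k.factorial : ℝ)) * Chamber.EV (VU k) G

/-- I14: sorted parts. -/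
def claimI14 : Prop := ∀ (k : ℕ) (G : (Fin (k + 4) → ℝ) → ℝ≥0∞), Measurable G →
    (∀ (x : Fin k → ℝ) (v : Fin 4 → ℝ) (σ : Equiv.Perm (Fin 4)),
      G (Fin.append x (fun i => v (σ i))) = G (Fin.append x v)) →
    Chamber.EV (VU k) G = Chamber.EV (V1 k) G

/-- I15: the final bound for at most `T` marks. -/
def claimI15 : Prop := ∀ (m T k : ℕ) (R : ℝ), k ≤ T → 1 ≤ R →
    IL 3 m T R (g4 0) k ≤ Jk m k R

/-- I16: the final bound with hidden marks. -/
def claimI16 : Prop := ∀ (m T K : ℕ) (R : ℝ), 1 ≤ R →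
    ∑ l ∈ Finset.range K, IL 3 m (T + 1) R (g4 0) (T + 1 + l) ≤ JH m T R

end Pool.Agent.Work.MP_122e00_nt.Four
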