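import Pool.Agent.Work.MP_122e00_nt.Gen.Stmts2
import Pool.Agent.Work.MP_122e00_nt.Four.Defs
import Pool.Agent.Work.MP_122e00_nt.Four.Tab

set_option autoImplicit false

/-!
# Four parts: the tail (exceptional integers), statements

`Vf 3 j k c` is `1 / 6` times the probability that any `j` of `k` successive picks have total size
less than `c`.
-/

namespace Pool.Agent.Work.MP_122e00_nt.Four

open Finset Filter Topology MeasureTheory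

open scoped ENNReal

open Two Gen Sharp

/-! ### A: picks -/

/-- A1: measurability. -/
def claimA1 : Prop :=
  (∀ k : ℕ, Measurable fun p : ℝ × (Fin k → ℝ) => PW k p.1 p.2) ∧
  (∀ k : ℕ, Measurable fun p : ℝ × ℝ => AA p.1 k p.2) ∧
  (∀ k i : ℕ, Measurable fun p : ℝ × ℝ × (Fin k → ℝ) => Ind p.1 i p.2.1 p.2.2) ∧
  ∀ (α : Type) [MeasurableSpace α] (i : ℕ) (z c : α → ℝ) (φ : α → ℝ → ℝ≥0∞), Measurable z →
    Measurable c → Measurable (Function.uncurry φ) →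
    Measurable fun a => Wo (z a) i (c a) (φ a)

open Classical in
/-- A2: the probability as an integral over the picks. -/
def claimA2 : Prop := ∀ (j k : ℕ) (c : ℝ), ENNReal.ofReal (Vf 3 j k c) ≤
    ENNReal.ofReal (1 / 6) * ∫⁻ x : Fin k → ℝ, (if Tj j c x then 1 else 0) * PW k 1 x

/-- A3: the `(i + 1)`-st largest mark. -/
def claimA3 : Prop := ∀ (k i : ℕ) (c : ℝ) (x : Fin (k + 1) → ℝ), Function.Injective x → i ≤ k →
    Tj (i + 1) c x → ∃ i₀ : Fin (k + 1), Ind (x i₀) i (c - x i₀) x = 1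

open Classical in
/-- A4: decomposition with respect to the `(i + 1)`-st largest mark. -/
def claimA4 : Prop := ∀ (k i : ℕ) (c : ℝ), i ≤ k →
    ∫⁻ x : Fin (k + 1) → ℝ, (if Tj (i + 1) c x then 1 else 0) * PW (k + 1) 1 x ≤
      ∑ i₀ : Fin (k + 1), ∫⁻ z in Set.Ioi (0 : ℝ), ∫⁻ x : Fin k → ℝ,
        Ind z i (c - z) x * PW (k + 1) 1 (i₀.insertNth (α := fun _ => ℝ) z x)

/-- A5: linearity and monotonicity of `Wo`. -/
def claimA5 : Prop := ∀ (i : ℕ) (z c : ℝ), 0 ≤ z →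
    (∀ (a : ℝ≥0∞) (φ : ℝ → ℝ≥0∞), Measurable φ →
      Wo z i c (fun σ => a * φ σ) = a * Wo z i c φ) ∧
    (∀ φ ψ : ℝ → ℝ≥0∞, Measurable φ → Measurable ψ →
      Wo z i c (fun σ => φ σ + ψ σ) = Wo z i c φ + Wo z i c ψ) ∧
    (∀ φ ψ : ℝ → ℝ≥0∞, (∀ σ, i * z ≤ σ → σ < c → φ σ ≤ ψ σ) → Wo z i c φ ≤ Wo z i c ψ)

/-- A6: the sum of the marks. -/
def claimA6 : Prop := ∀ (i : ℕ) (z c : ℝ), 0 ≤ z → ∀ φ : ℝ → ℝ≥0∞, Measurable φ →
    Wo z (i + 1) c (fun σ => ENNReal.ofReal σ * φ σ) =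
      ∫⁻ y in Set.Ioi z, Wo z i (c - y) fun σ => φ (σ + y)

/-- A7: exchange of integrals. -/
def claimA7 : Prop := ∀ (i : ℕ) (z c : ℝ) (S : Set ℝ) (φ : ℝ → ℝ → ℝ≥0∞), MeasurableSet S →
    Measurable (Function.uncurry φ) →
    Wo z i c (fun σ => ∫⁻ y in S, φ σ y) = ∫⁻ y in S, Wo z i c fun σ => φ σ y

/-- A8: the volume. -/
def claimA8 : Prop := ∀ (i : ℕ) (z c : ℝ), 0 < z →
    (c ≤ i * z → Wo z i c (fun _ => 1) = 0) ∧
    (i * z ≤ c → Wo z i c (fun _ => 1) ≤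
      ENNReal.ofReal (((c - i * z) / z) ^ i / (i.factorial : ℝ) ^ 2))

/-- A9: the recursion for `AA`, multiplied with `R ^ 4`. -/
def claimA9 : Prop := ∀ (k : ℕ) (z R : ℝ), 0 < R →
    ∫⁻ y in Set.Ioo 0 R ∩ Set.Iic z, ENNReal.ofReal (4 * (R - y) ^ 3) * AA z k (R - y) =
      ENNReal.ofReal (R ^ 4) * AA z (k + 1) R

/-- A10: monotonicity and scaling of `AA`. -/
def claimA10 : Prop := (∀ (k : ℕ) (z R R' : ℝ), 0 < z → 0 < R → R ≤ R' →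
      AA z k R' ≤ AA z k R) ∧
    (∀ (k : ℕ) (z R : ℝ), 0 < z → 0 < R → AA z k R ≤ 1 ∧ AA z (k + 1) R ≤ AA z k R) ∧
    (∀ (k : ℕ) (z R a : ℝ), 0 < a → 0 < z → 0 < R → AA (a * z) k (a * R) = AA z k R)

open Classical in
/-- A11: exactly `i` big marks among `k` picks. -/
def claimA11 : Prop := ∀ (k i : ℕ) (z R c : ℝ), 0 < z → 0 < R →
    ∫⁻ x : Fin k → ℝ, Ind z i c x * PW k R x ≤ 4 ^ i * Wo z i c (fun σ =>
      if σ < R then ENNReal.ofReal (((R - σ) / R) ^ 3) * AA z (k - i) (R - σ) else 0)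

open Classical in
/-- A12: exactly `i` big marks among `k` picks, and one mark of size `z`. -/
def claimA12 : Prop := ∀ (k i : ℕ) (z R c : ℝ), 0 < z → 0 < R →
    ∑ i₀ : Fin (k + 1), ∫⁻ x : Fin k → ℝ,
        Ind z i c x * PW (k + 1) R (i₀.insertNth (α := fun _ => ℝ) z x) ≤
      ENNReal.ofReal (4 / z) * 4 ^ i * Wo z i c (fun σ =>
        if σ + z < R then ENNReal.ofReal (((R - σ - z) / R) ^ 3) * AA z (k - i) (R - σ - z) else 0)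

/-- A13: the bound for the tail. -/
def claimA13 : Prop := ∀ (j j' k m : ℕ) (c c₀ : ℝ), 1 ≤ j' → j' ≤ j → j ≤ k → j' + m ≤ k →
    0 < c → c ≤ c₀ → c₀ < 1 →
    ENNReal.ofReal (Vf 3 j k c) ≤ ENNReal.ofReal (1 / 6) * Fj j' m c₀

/-! ### B: numerical bounds -/

/-- B1: a table for `AA 1 k (a / N)`. -/
def claimB1 : Prop := ∀ (N Sc M : ℕ) (U : ℕ → ℕ → ℕ), 1 ≤ N → 1 ≤ Sc →
    (∀ a : ℕ, a ≤ M → Sc ≤ U 0 a) →
    (∀ k a : ℕ, a ≤ N → a ≤ M → Sc ≤ U (k + 1) a) →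
    (∀ k a : ℕ, N < a → a ≤ M → ∑ b ∈ Finset.Ico (a - N) a, ((b + 1) ^ 4 - b ^ 4) * U k b ≤
      U (k + 1) a * a ^ 4) →
    ∀ k a : ℕ, 1 ≤ a → a ≤ M → AA 1 k ((a : ℝ) / N) ≤ ENNReal.ofReal ((U k a : ℝ) / Sc)

/-- B2: large arguments. -/
def claimB2 : Prop := ∀ (m : ℕ) (z R : ℝ), 0 < z → m * z < R →
    AA z m R ≤ ENNReal.ofReal (∏ l ∈ Finset.range m, 4 * z / (R - l * z))

/-- The contribution of one cell, `c = 100 / 299`, `z` between `199 N / (299 (a + 1))` and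
`199 N / (299 a)`. -/
noncomputable def cell (j N a : ℕ) : ℝ :=
  4 ^ j / ((j - 1).factorial : ℝ) ^ 2 *
    (((100 * (a + 1) - 199 * N * j : ℕ) : ℝ) ^ (j - 1) *
      ((299 * (a + 1) - 199 * N * j : ℕ) : ℝ) ^ 3) /
    ((a : ℝ) * ((a : ℝ) + 1) ^ 3 * 299 ^ 3 * (199 * (N : ℝ)) ^ (j - 1))

/-- B3: the bound for `Fj` by cells. -/
def claimB3 : Prop := ∀ (j N a₀ M : ℕ) (u : ℕ → ℝ), 2 ≤ j → j ≤ 16 → 1 ≤ N → 1 ≤ a₀ →
    100 * a₀ ≤ 199 * N * j → a₀ ≤ M → M = 40 * N → (∀ a, 0 ≤ u a) →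
    (∀ a : ℕ, a₀ ≤ a → a < M → AA 1 16 ((a : ℝ) / N) ≤ ENNReal.ofReal (u a)) →
    Fj j 16 (100 / 299) ≤ ENNReal.ofReal (∑ a ∈ Finset.Ico a₀ M, cell j N a * u a +
      4 ^ j / ((j - 1).factorial : ℝ) ^ 2 * (100 / 299) ^ (j - 1) *
        (∏ l ∈ Finset.range 16, (4 : ℝ) / (199 / 299 - l * (199 / (299 * 40)))) *
        ((199 / (299 * 40)) ^ (17 - j) / (17 - j)))

/-- T1: the table computed by `Tb.tbl`. -/
def claimT1 : Prop := ∀ (N Sc M : ℕ), 1 ≤ N → N ≤ M → 1 ≤ Sc →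
    (∀ k : ℕ, (Tb.tbl N Sc M k).length = M + 1 + k) ∧
    (∀ a : ℕ, a ≤ M → (Tb.tbl N Sc M 0).getD a 0 = Sc) ∧
    (∀ k a : ℕ, a ≤ N → (Tb.tbl N Sc M (k + 1)).getD a 0 = Sc) ∧
    ∀ k a : ℕ, N < a → a ≤ M + k + 1 → (Tb.tbl N Sc M (k + 1)).getD a 0 =
      Tb.cdiv (∑ b ∈ Finset.Ico (a - N) a, ((b + 1) ^ 4 - b ^ 4) * (Tb.tbl N Sc M k).getD b 0)
        (a ^ 4)

/-- T2: the sum computed by `Tb.sums`. -/
def claimT2 : Prop := ∀ (j N Sc : ℕ), 1 ≤ N → 1 ≤ Sc → 1 ≤ j → ∀ (U : List ℕ) (a s r : ℕ),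
    1 ≤ a → Tb.sums j N Sc U a s r = true →
    ∑ i ∈ Finset.range U.length, cell j N (a + i) * ((U.getD i 0 : ℝ) / Sc) ≤
      4 ^ j / ((j - 1).factorial : ℝ) ^ 2 * (((r : ℝ) - s) / 10 ^ 20)

/-- T3: the computation. -/
def claimT3 : Prop :=
  Tb.sums 4 40 1000000000000000 (Tb.dr 318 (Tb.tbl 40 1000000000000000 1599 16)) 318 0
    497000000000000 = true ∧
  Tb.sums 5 40 1000000000000000 (Tb.dr 398 (Tb.tbl 40 1000000000000000 1599 16)) 398 0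
    17800000000000 = true ∧
  Tb.sums 6 40 1000000000000000 (Tb.dr 477 (Tb.tbl 40 1000000000000000 1599 16)) 477 0
    2320000000000 = true

/-- B4: the numerical values. -/
def claimB4 : Prop :=
  Fj 4 16 (100 / 299) ≤ ENNReal.ofReal (354 / 10 ^ 7) ∧
  Fj 5 16 (100 / 299) ≤ ENNReal.ofReal (317 / 10 ^ 9) ∧
  Fj 6 16 (100 / 299) ≤ ENNReal.ofReal (69 / 10 ^ 10)

/-- B5: a crude bound for large `j` (compare `Gen.claimE10`). -/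
def claimB5 : Prop := ∀ (j : ℕ) (c : ℝ), 9 ≤ j → 0 < c → c ≤ 100 / 299 →
    Vf 3 j (j + 16) c ≤ 4 ^ (j + 16) * (1 - c)⁻¹ ^ j * 3140000 *
      (c ^ (j + 16) / ((j.factorial : ℝ) * (j : ℝ) ^ 16))

/-- B6: the sum over large `j` (compare `Gen.claimE11`). -/
def claimB6 : Prop := ∀ (c : ℝ), 0 < c → c ≤ 100 / 299 → ∀ J : ℕ,
    ∑ j ∈ Finset.Ico 9 J, ((3 : ℕ) + 1 : ℝ) ^ (j + 1) * Vf 3 j (j + 16) c ≤ 326 / 1000000

/-- B7: the sum over all `j`. -/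
def claimB7 : Prop := ∀ (c : ℝ), 0 < c → c ≤ 100 / 299 → ∀ J : ℕ,
    ∑ j ∈ Finset.Ico 4 J, ((3 : ℕ) + 1 : ℝ) ^ (j + 1) * Vf 3 j (j + 16) c ≤ 7 / 1000

end Pool.Agent.Work.MP_122e00_nt.Four
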