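import Pool.Agent.Work.MP_122e00_nt.Four.Stmts
import Pool.Agent.Work.MP_122e00_nt.Four.StmtsTail
import Pool.Agent.Work.MP_122e00_nt.Gen.Stmts2
import Pool.Agent.Work.MP_122e00_nt.Bd.B40
import Pool.Agent.Work.MP_122e00_nt.Bd.B45
import Pool.Agent.Work.MP_122e00_nt.Bdx.B05
import Pool.Agent.Work.MP_122e00_nt.Euler4

set_option autoImplicit false

/-!
# Four parts: from the numerical value to the two-sided bound (`r = 4`)
-/

namespace Pool.Agent.Work.MP_122e00_nt.Four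

open Finset Filter Topology MeasureTheory

open scoped ENNReal ArithmeticFunction.vonMangoldt ArithmeticFunction.zeta

open Two Gen Sharp

namespace IFin

/-- Four times the integral of the weight. -/
noncomputable def bth (θ : ℝ) : ℝ :=
  4 * (2 * ((1 / 2 - θ) ^ 3 / 6))

theorem bth_zero : bth 0 = 1 / 6 := by
  unfold bth
  norm_num

theorem continuous_bth : Continuous bth := by
  unfold bth
  fun_prop

theorem bth_eq (hF3 : claimF3) {θ : ℝ} (h0 : 0 < θ) (h1 : θ < 1 / 2) :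
    bth θ = ((3 : ℕ) + 1) * ∫ y in O1 3, psw 2 0 3 θ y := by
  rw [(hF3 3 2 0 θ (by norm_num) (by norm_num) le_rfl h0 h1).2]
  unfold bth
  norm_num [Nat.factorial]

theorem psw_low {θ : ℝ} (y : Fin 3 → ℝ) (h : ∀ i, 0 ≤ y i) (hs : ∑ i, y i ≤ 1 / 2 - θ) :
    (2 : ℝ) ≤ psw 2 0 3 θ y := by
  unfold psw
  rw [Set.indicator_of_mem (show y ∈ {y : Fin 3 → ℝ | (∀ i, 0 ≤ y i) ∧ ∑ i, y i ≤ 1 / 2 - θ}
    from ⟨h, hs⟩)]
  have : 0 ≤ ∑ i, y i := Finset.sum_nonneg fun i _ => h i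
  linarith

theorem IK_nonneg (hF1 : claimF1) (m T k : ℕ) (R θ : ℝ) (hR : 1 ≤ R) (hθ : 0 ≤ θ) :
    0 ≤ IK 3 m T R 2 0 θ k := by
  obtain ⟨B, hB⟩ := hF1 3 m T R 2 0 (by norm_num) le_rfl hR
  unfold IK
  refine setIntegral_nonneg (II0.measurableSet_Sim k 3) fun y hy => ?_
  rw [II0.ext_eq]
  exact mul_nonneg (hB θ hθ k (xs y) (vs y)).1 (II0.den_nonneg y hy)

end IFin

/-- The two-sided bound for `r = 4`, from the numerical value of the functional. -/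
theorem final_of (hD6 : claimD6) (hF1 : claimF1) (hF3 : claimF3) (hN1 : Sharp.claimN1) (hI0 : claimI0)
    (hAT2 : claimAT2) (hX0 : claimX0) (hE8 : claimE8) (hB7 : claimB7)
    (m T : ℕ) (R V : ℝ) (hm : 1 ≤ m) (hR : 128 ≤ R)
    (hnum : ∑ k ∈ Finset.range (m + 1), IK 3 m T R 2 0 0 k ≤ V)
    (h : ℕ) (hh : h ≠ 0) (E : ℝ) (hE : 6 * V + 21 / 1000 < E) :
    ∀ᶠ X : ℝ in atTop, |DS 3 h 0 ⌊X⌋₊ - Csing 3 h / 36 * (X * (Real.log X) ^ (2 * 3))| ≤
      E * (Csing 3 h / 36) * (X * (Real.log X) ^ (2 * 3)) := by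
  have hC : 0 < Csing 3 h := Csing_pos (by norm_num) h hh
  set S : ℝ → ℝ := fun θ => ∑ k ∈ Finset.range (m + 1), IK 3 m T R 2 0 θ k with hS
  -- the limit `θ → 0`
  have t1 : Tendsto S (𝓝[>] 0) (𝓝 (S 0)) := by
    refine tendsto_finsetSum _ fun k _ => ?_
    exact hI0 3 m T k R 2 0 (by norm_num) (by norm_num) le_rfl (by linarith)
  have t2 : Tendsto IFin.bth (𝓝[>] 0) (𝓝 (1 / 6)) := by
    rw [← IFin.bth_zero]
    exact IFin.continuous_bth.continuousAt.tendsto.mono_left nhdsWithin_le_nhds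
  have tid : Tendsto (fun θ : ℝ => θ) (𝓝[>] 0) (𝓝 0) := nhdsWithin_le_nhds
  have t3 : Tendsto (fun θ : ℝ => |IFin.bth θ / 3 - IFin.bth θ ^ 2 - 1 / 36| +
      IFin.bth θ * (|S θ| * θ + S θ + 7 / 2000 + θ) + θ) (𝓝[>] 0)
      (𝓝 (|(1 / 6 : ℝ) / 3 - (1 / 6) ^ 2 - 1 / 36| +
        1 / 6 * (|S 0| * 0 + S 0 + 7 / 2000 + 0) + 0)) :=
    (((((t2.div_const 3).sub (t2.pow 2)).sub tendsto_const_nhds).abs).add
      (t2.mul ((((t1.abs.mul tid).add t1).add tendsto_const_nhds).add tid))).add tid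
  have hlt : |(1 / 6 : ℝ) / 3 - (1 / 6) ^ 2 - 1 / 36| +
      1 / 6 * (|S 0| * 0 + S 0 + 7 / 2000 + 0) + 0 < E / 36 := by
    have e0 : |(1 / 6 : ℝ) / 3 - (1 / 6) ^ 2 - 1 / 36| = 0 := by norm_num
    rw [e0]
    have : S 0 ≤ V := hnum
    linarith
  have ev1 := t3.eventually (Iio_mem_nhds hlt)
  have ev2 : ∀ᶠ θ : ℝ in 𝓝[>] 0, 0 < θ ∧ θ ≤ 1 / 2000 := by
    have h1 : ∀ᶠ θ in 𝓝[>] (0:ℝ), θ < 1 / 2000 :=
      (eventually_lt_nhds (by norm_num)).filter_mono nhdsWithin_le_nhds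
    filter_upwards [self_mem_nhdsWithin, h1] with θ a1 a2
    exact ⟨a1, a2.le⟩
  obtain ⟨θ, hθE, h0, h1⟩ := (ev1.and ev2).exists
  have h12 : θ < 1 / 2 := by linarith
  set ψ : (Fin 3 → ℝ) → ℝ := psw 2 0 3 θ with hψ
  have hW : Wt 3 θ ψ :=
    (hF3 3 2 0 θ (by norm_num) (by norm_num) le_rfl h0 h12).1
  set c : ℝ := ((3 : ℕ) - 1 : ℝ) / (2 * (3 : ℕ)) + 2 * θ with hc
  have hc0 : 0 < c := by rw [hc]; norm_num; linarith
  have hc1 : c ≤ 100 / 299 := by rw [hc]; norm_num; linarith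
  -- the exceptional integers
  obtain ⟨HE, hHE, hHEd⟩ := hE8 3 h θ c 2 ψ (by norm_num) hh h0 (by linarith) hc hW
    (by norm_num) (fun y a1 a2 => IFin.psw_low y a1 a2) 4 16 R (7 / 2000) (by norm_num)
    (by linarith) (by norm_num; linarith) (fun J => by
      refine (hB7 c hc0 hc1 J).trans (le_of_eq ?_)
      norm_num) θ h0
  -- the regular integers
  set HR : ℝ → ℕ → ℝ := fun X n => (1 + θ) * ∑ k ∈ Finset.range (m + 1),
    TS (Real.log X) 3 k n (FS m T R (gs ψ) k) with hHR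
  have hMR : Mean 3 h ψ HR ((1 + θ) * S θ) :=
    (hX0 3 h θ ψ hW).2 (1 + θ) _ _ (by linarith)
      (hN1 3 m T h R 2 0 θ (by norm_num) hh (by norm_num) le_rfl
        (by linarith) h0 h12)
  have hM : Mean 3 h ψ (fun X n => HR X n + HE X n) ((1 + θ) * S θ + (7 / 2000 + θ)) :=
    prfM2 3 h ψ HR HE _ _ hMR hHE
  have hD6' := hD6 3 m T R 2 0 θ θ (by norm_num) hm (by linarith) (by norm_num)
    le_rfl h0 h12 h0
  have hWnn : ∀ (L : ℝ) (n : ℕ), 0 < L → n ≠ 0 → 0 ≤ Wn 3 ψ L n := by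
    intro L n hL hn
    refine prfT2 L 3 0 n hL hn _ fun x v _ _ _ => ?_
    exact Finset.sum_nonneg fun i _ => hW.nonneg _
  have hDom : Dom2 3 ψ (fun X n => HR X n + HE X n) := by
    unfold Dom2
    filter_upwards [hD6', hHEd, eventually_gt_atTop (1 : ℝ)] with X a1 a2 a3 n n1 n2
    obtain ⟨b1, b2⟩ := a1 n n1 n2
    obtain ⟨b3, b4⟩ := a2 n n1 n2
    have hL : 0 < Real.log X := Real.log_pos a3
    have hn : n ≠ 0 := by
      rintro rfl
      have : 0 < X / Real.log X := by positivity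
      simp at n1
      linarith
    have hWn := hWnn (Real.log X) n hL hn
    have hHR0 : 0 ≤ HR X n := mul_nonneg (by linarith) b1
    refine ⟨add_nonneg hHR0 b3, ?_⟩
    rcases le_or_gt (dv 3 n) (R * Wn 3 ψ (Real.log X) n) with hle | hgt
    · refine ⟨0, by rw [abs_zero]; positivity, ?_⟩
      have := b2 hle
      calc (dv 3 n - Wn 3 ψ (Real.log X) n - 0) ^ 2
          = (dd 3 n - WW ψ (Real.log X) n) ^ 2 := by rw [sub_zero]; rfl
        _ ≤ HR X n * Wn 3 ψ (Real.log X) n := this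
        _ ≤ (HR X n + HE X n) * Wn 3 ψ (Real.log X) n :=
            mul_le_mul_of_nonneg_right (by linarith) hWn
    · obtain ⟨l, hl, hl2⟩ := b4 hgt
      exact ⟨l, hl, hl2.trans (mul_le_mul_of_nonneg_right (by linarith) hWn)⟩
  -- the two-sided theorem; the constant is made nonnegative
  set I : ℝ := |S θ| * θ + S θ + 7 / 2000 + θ with hI
  have hIle : (1 + θ) * S θ + (7 / 2000 + θ) ≤ I := by
    have := le_abs_self (S θ)
    rw [hI]
    nlinarith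
  have hbeq := IFin.bth_eq hF3 h0 h12
  have hb0 : 0 ≤ IFin.bth θ := by
    unfold IFin.bth
    have : 0 ≤ 1 / 2 - θ := by linarith
    positivity
  have hψ0 : 0 ≤ ∫ y in O1 3, ψ y := integral_nonneg fun y => hW.nonneg y
  have hS0 : 0 ≤ S θ := Finset.sum_nonneg fun k _ => IFin.IK_nonneg hF1 m T k R θ
    (by linarith) h0.le
  have hI0' : 0 ≤ I := by
    rw [hI]
    have := abs_nonneg (S θ)
    positivity
  have hM' : Mean 3 h ψ (fun X n => HR X n + HE X n) I := by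
    intro δ hδ
    filter_upwards [hM δ hδ, eventually_ge_atTop (1 : ℝ)] with X a1 a2 z hz
    refine (a1 z hz).trans ?_
    refine mul_le_mul_of_nonneg_right ?_ ?_
    · have : Csing 3 h * (∫ y in O1 3, ψ y) * ((1 + θ) * S θ + (7 / 2000 + θ)) ≤
          Csing 3 h * (∫ y in O1 3, ψ y) * I :=
        mul_le_mul_of_nonneg_left hIle (mul_nonneg hC.le hψ0)
      linarith
    · have := Real.log_nonneg a2
      positivity
  have hfin := hAT2 3 h θ ψ (by norm_num) hh h0 h12 hW _ I (IFin.bth θ) hI0' hDom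
    hM' hbeq (Csing 3 h * θ) (mul_pos hC h0)
  filter_upwards [hfin, eventually_gt_atTop (1 : ℝ)] with X a1 a2
  set Q : ℝ := X * (Real.log X) ^ (2 * 3) with hQ
  have hQ0 : 0 ≤ Q := by
    have := Real.log_pos a2
    rw [hQ]
    positivity
  have e1 : (2 * IFin.bth θ / ((3 : ℕ).factorial : ℝ) - IFin.bth θ ^ 2) =
      IFin.bth θ / 3 - IFin.bth θ ^ 2 := by
    have : ((3 : ℕ).factorial : ℝ) = 6 := by norm_num [Nat.factorial]
    rw [this]
    ring
  rw [e1] at a1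
  have e2 : DS 3 h 0 ⌊X⌋₊ - Csing 3 h / 36 * Q = (DS 3 h 0 ⌊X⌋₊ -
      Csing 3 h * (IFin.bth θ / 3 - IFin.bth θ ^ 2) * Q) +
      Csing 3 h * (IFin.bth θ / 3 - IFin.bth θ ^ 2 - 1 / 36) * Q := by ring
  have e3 : |Csing 3 h * (IFin.bth θ / 3 - IFin.bth θ ^ 2 - 1 / 36) * Q| =
      Csing 3 h * |IFin.bth θ / 3 - IFin.bth θ ^ 2 - 1 / 36| * Q := by
    rw [abs_mul, abs_mul, abs_of_pos hC, abs_of_nonneg hQ0]
  rw [e2]
  refine (abs_add_le _ _).trans ?_
  rw [e3]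
  calc |DS 3 h 0 ⌊X⌋₊ - Csing 3 h * (IFin.bth θ / 3 - IFin.bth θ ^ 2) * Q| +
        Csing 3 h * |IFin.bth θ / 3 - IFin.bth θ ^ 2 - 1 / 36| * Q
      ≤ (Csing 3 h * IFin.bth θ * I + Csing 3 h * θ) * Q +
        Csing 3 h * |IFin.bth θ / 3 - IFin.bth θ ^ 2 - 1 / 36| * Q := by gcongr
    _ = Csing 3 h * (|IFin.bth θ / 3 - IFin.bth θ ^ 2 - 1 / 36| + IFin.bth θ * I + θ) * Q := by ring
    _ ≤ Csing 3 h * (E / 36) * Q := by
        refine mul_le_mul_of_nonneg_right (mul_le_mul_of_nonneg_left hθE.le hC.le) hQ0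
    _ = E * (Csing 3 h / 36) * Q := by ring

/-- The numerical value of the functional, from the certificate. -/
theorem num_of (hI1 : claimI1) (hI15 : claimI15) (hI16 : claimI16) (m T : ℕ) (R V : ℝ)
    (hm : 1 ≤ m) (hTm : T + 1 ≤ m + 1) (hR : 1 ≤ R) (hV : 0 ≤ V) (hF1 : claimF1)
    (hcert : ∑ k ∈ Finset.range T, Jk m (k + 1) R + JH m T R ≤ ENNReal.ofReal V) :
    ∑ k ∈ Finset.range (m + 1), IK 3 m (T + 1) R 2 0 0 k ≤ V := by
  rw [← ENNReal.ofReal_le_ofReal_iff hV, ENNReal.ofReal_sum_of_nonneg fun k _ =>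
    IFin.IK_nonneg hF1 m (T + 1) k R 0 hR le_rfl]
  refine le_trans ?_ hcert
  have h0 : ∀ k, ENNReal.ofReal (IK 3 m (T + 1) R 2 0 0 k) ≤
      IL 3 m (T + 1) R (g4 0) k := fun k =>
    hI1 3 m (T + 1) k R 2 0 (by norm_num) (by norm_num) le_rfl hR
  refine (Finset.sum_le_sum fun k _ => h0 k).trans ?_
  have hz : IL 3 m (T + 1) R (g4 0) 0 = 0 := by
    unfold IL
    have : ∀ y : Fin 0 ⊕ Fin 3 → ℝ, ENNReal.ofReal (Qo 0 m (xs y) *
        HC (T + 1) R (g4 0) (xs y) (vs y)) = 0 := by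
      intro y
      have : Qo 0 m (xs y) = 0 := by
        unfold Qo
        rw [if_neg (by omega)]
      rw [this, zero_mul, ENNReal.ofReal_zero]
    simp only [this, lintegral_const, zero_mul]
  have hsplit : ∑ k ∈ Finset.range (m + 1), IL 3 m (T + 1) R (g4 0) k =
      ∑ k ∈ Finset.range (T + 1), IL 3 m (T + 1) R (g4 0) k +
        ∑ l ∈ Finset.range (m - T), IL 3 m (T + 1) R (g4 0) (T + 1 + l) := by
    have : m + 1 = (T + 1) + (m - T) := by omega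
    rw [this, Finset.sum_range_add]
  rw [hsplit]
  refine add_le_add ?_ (hI16 m T (m - T) R hR)
  rw [Finset.sum_range_succ', hz, add_zero]
  exact Finset.sum_le_sum fun k hk => hI15 m (T + 1) (k + 1) R
    (by have := Finset.mem_range.1 hk; omega) hR

end Pool.Agent.Work.MP_122e00_nt.Four
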