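import Pool.Agent.Work.MP_122e00_nt.Four.ItemA11

set_option autoImplicit false

/-!
# Item A12: `i` big marks and one mark of size `z`
-/

namespace Pool.Agent.Work.MP_122e00_nt.Four

open Finset Filter Topology MeasureTheory

open scoped ENNReal

open Two Gen Sharp

namespace IA12

open IA11

theorem ins_zero {k : ℕ} (z : ℝ) (x : Fin k → ℝ) :
    Fin.insertNth (α := fun _ => ℝ) (0 : Fin (k + 1)) z x = (Fin.cons z x : Fin (k + 1) → ℝ) := by
  rw [Fin.insertNth_zero']

theorem ins_succ {k : ℕ} (i₀ : Fin (k + 1)) (z y : ℝ) (x : Fin k → ℝ) :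
    Fin.insertNth (α := fun _ => ℝ) (i₀.succ : Fin (k + 2)) z (Fin.cons y x : Fin (k + 1) → ℝ) =
      (Fin.cons y (Fin.insertNth (α := fun _ => ℝ) i₀ z x) : Fin (k + 2) → ℝ) := by
  rw [Fin.insertNth_eq_iff]
  constructor
  · rw [Fin.cons_succ, Fin.insertNth_apply_same]
  · funext j
    refine Fin.cases ?_ (fun j => ?_) j
    · simp [Fin.removeNth]
    · simp [Fin.removeNth]

theorem ins_meas {k : ℕ} (i₀ : Fin (k + 1)) (z : ℝ) :
    Measurable fun x : Fin k → ℝ => Fin.insertNth (α := fun _ => ℝ) i₀ z x := by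
  refine measurable_pi_iff.2 fun m => ?_
  rcases Fin.eq_self_or_eq_succAbove i₀ m with rfl | ⟨j, rfl⟩
  · simp only [Fin.insertNth_apply_same]
    exact measurable_const
  · simp only [Fin.insertNth_apply_succAbove]
    exact measurable_pi_apply j

/-- The left side. -/
noncomputable def LL (z : ℝ) (k i : ℕ) (R c : ℝ) : ℝ≥0∞ :=
  ∑ i₀ : Fin (k + 1), ∫⁻ x : Fin k → ℝ,
    Ind z i c x * PW (k + 1) R (Fin.insertNth (α := fun _ => ℝ) i₀ z x)

theorem sum_le_lintegral {ι : Type} (s : Finset ι) (S : Set ℝ) (f : ι → ℝ → ℝ≥0∞) :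
    ∑ i ∈ s, ∫⁻ y in S, f i y ≤ ∫⁻ y in S, ∑ i ∈ s, f i y := by
  classical
  induction s using Finset.induction_on with
  | empty => simp
  | insert a s ha ih =>
    rw [Finset.sum_insert ha]
    simp only [Finset.sum_insert ha]
    exact (add_le_add_right ih _).trans (le_lintegral_add _ _)

/-- The terms with `i₀ = 0`. -/
theorem first (h1 : claimA1) (h5 : claimA5) (h11 : claimA11) (k i : ℕ) (z R c : ℝ) (hz : 0 < z) :
    ∫⁻ x : Fin (k + 1) → ℝ, Ind z i c x * PW (k + 2) R (Fin.cons z x : Fin (k + 2) → ℝ) ≤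
      ENNReal.ofReal (4 / z) * 4 ^ i * Wo z i c
        (fun s => ENNReal.ofReal (z / R) * Ph z R (k + 1 - i) (s + z)) := by
  by_cases hzR : z < R
  · have hR : 0 < R := hz.trans hzR
    have e1 : ∀ x : Fin (k + 1) → ℝ, Ind z i c x * PW (k + 2) R (Fin.cons z x : Fin (k + 2) → ℝ) =
        wt R z * (Ind z i c x * PW (k + 1) (R - z) x) := by
      intro x
      rw [PW_cons, Set.indicator_of_mem (show z ∈ Set.Ioo 0 R from ⟨hz, hzR⟩)]
      ring
    simp only [e1]
    have hmm : Measurable fun x : Fin (k + 1) → ℝ => Ind z i c x * PW (k + 1) (R - z) x :=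
      (Ind_meas h1 _ _ _ _).mul (PW_meas h1 _ _)
    have hm3 : ∀ (R : ℝ) (n : ℕ), Measurable fun s : ℝ => Ph z R n s := fun R n =>
      (Ph_meas h1 z n).comp (measurable_const.prodMk (by fun_prop))
    have hm4 : ∀ (R : ℝ) (n : ℕ), Measurable fun s : ℝ => Ph z R n (s + z) := fun R n =>
      (Ph_meas h1 z n).comp (measurable_const.prodMk (by fun_prop))
    rw [lintegral_const_mul _ hmm]
    have h2 : ∫⁻ x : Fin (k + 1) → ℝ, Ind z i c x * PW (k + 1) (R - z) x ≤
        4 ^ i * Wo z i c (fun s => Ph z (R - z) (k + 1 - i) s) :=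
      h11 (k + 1) i z (R - z) c hz (by linarith)
    have e2 : wt R z * Wo z i c (fun s => Ph z (R - z) (k + 1 - i) s) =
        ENNReal.ofReal (4 / R) * Wo z i c (fun s => Ph z R (k + 1 - i) (s + z)) := by
      rw [← (h5 i z c hz.le).1 (wt R z) _ (hm3 _ _),
        ← (h5 i z c hz.le).1 (ENNReal.ofReal (4 / R)) _ (hm4 _ _)]
      congr 1
      funext s
      exact wt_Ph z R z s _ hz hzR
    calc wt R z * ∫⁻ x : Fin (k + 1) → ℝ, Ind z i c x * PW (k + 1) (R - z) x ≤
        wt R z * (4 ^ i * Wo z i c (fun s => Ph z (R - z) (k + 1 - i) s)) := by gcongr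
      _ = 4 ^ i * (wt R z * Wo z i c (fun s => Ph z (R - z) (k + 1 - i) s)) := by ring
      _ = 4 ^ i * (ENNReal.ofReal (4 / R) *
          Wo z i c (fun s => Ph z R (k + 1 - i) (s + z))) := by rw [e2]
      _ = _ := by
        rw [(h5 i z c hz.le).1 _ _ (hm4 _ _)]
        have e3 : ENNReal.ofReal (4 / R) = ENNReal.ofReal (4 / z) * ENNReal.ofReal (z / R) := by
          rw [← ENNReal.ofReal_mul (by positivity)]
          congr 1
          field_simp
        rw [e3]
        ring
  · have e1 : ∀ x : Fin (k + 1) → ℝ, Ind z i c x * PW (k + 2) R (Fin.cons z x : Fin (k + 2) → ℝ) =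
        0 := by
      intro x
      rw [PW_cons, Set.indicator_of_notMem (fun h => hzR h.2), mul_zero]
    simp only [e1, lintegral_zero]
    exact zero_le

theorem PWi_cons {k : ℕ} (i₀ : Fin (k + 1)) (z R y : ℝ) (x : Fin k → ℝ) :
    PW (k + 2) R (Fin.insertNth (α := fun _ => ℝ) (i₀.succ : Fin (k + 2)) z
      (Fin.cons y x : Fin (k + 1) → ℝ)) =
      (Set.Ioo 0 R).indicator (fun y => wt R y *
        PW (k + 1) (R - y) (Fin.insertNth (α := fun _ => ℝ) i₀ z x)) y := by
  rw [ins_succ, PW_cons]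

theorem PWi_meas (h1 : claimA1) (k : ℕ) (i₀ : Fin (k + 1)) (z R : ℝ) :
    Measurable fun x : Fin k → ℝ =>
      PW (k + 1) R (Fin.insertNth (α := fun _ => ℝ) i₀ z x) :=
  (PW_meas h1 (k + 1) R).comp (ins_meas i₀ z)

theorem LL_step0 (h1 : claimA1) (h5 : claimA5) (h11 : claimA11) (k : ℕ) (z R c : ℝ) (hz : 0 < z) :
    LL z (k + 1) 0 R c ≤ ENNReal.ofReal (4 / z) * 4 ^ 0 * Wo z 0 c
        (fun s => ENNReal.ofReal (z / R) * Ph z R (k + 1) (s + z)) +
      ∫⁻ y in Set.Ioo 0 R ∩ Set.Iic z, wt R y * LL z k 0 (R - y) c := by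
  unfold LL
  rw [Fin.sum_univ_succ]
  refine add_le_add ?_ ?_
  · have := first h1 h5 h11 k 0 z R c hz
    simp only [ins_zero]
    exact this
  · simp only [Finset.mul_sum]
    refine le_trans ?_ (sum_le_lintegral _ _ _)
    refine Finset.sum_le_sum fun i₀ _ => ?_
    rw [split h1 0 z c R _ (PWi_meas h1 (k + 1) i₀.succ z R)
      (fun r x => PW (k + 1) r (Fin.insertNth (α := fun _ => ℝ) i₀ z x))
      (fun r => PWi_meas h1 k i₀ z r) (PWi_cons i₀ z R)]
    have h0 : ∫⁻ y in Set.Ioo 0 R ∩ Set.Ioi z, wt R y *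
        ∫⁻ x : Fin k → ℝ, Ind z 0 c (Fin.cons y x : Fin (k + 1) → ℝ) *
          PW (k + 1) (R - y) (Fin.insertNth (α := fun _ => ℝ) i₀ z x) = 0 := by
      rw [setLIntegral_congr_fun (measurableSet_Ioo.inter measurableSet_Ioi)
        (g := fun _ => 0)]
      · simp
      · intro y hy
        simp only [Ind_big_zero z c y _ hy.2, zero_mul, lintegral_zero, mul_zero]
    rw [h0, add_zero]

theorem LL_step (h1 : claimA1) (h5 : claimA5) (h11 : claimA11) (k i : ℕ) (z R c : ℝ) (hz : 0 < z) :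
    LL z (k + 1) (i + 1) R c ≤ ENNReal.ofReal (4 / z) * 4 ^ (i + 1) * Wo z (i + 1) c
        (fun s => ENNReal.ofReal (z / R) * Ph z R (k - i) (s + z)) +
      (∫⁻ y in Set.Ioo 0 R ∩ Set.Iic z, wt R y * LL z k (i + 1) (R - y) c) +
      ∫⁻ y in Set.Ioo 0 R ∩ Set.Ioi z, wt R y * LL z k i (R - y) (c - y) := by
  rw [add_assoc]
  unfold LL
  rw [Fin.sum_univ_succ]
  refine add_le_add ?_ ?_
  · have := first h1 h5 h11 k (i + 1) z R c hz
    have hk : k + 1 - (i + 1) = k - i := by omega
    rw [hk] at this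
    simp only [ins_zero]
    exact this
  · simp only [Finset.mul_sum]
    refine le_trans ?_ (add_le_add (sum_le_lintegral _ _ _) (sum_le_lintegral _ _ _))
    rw [← Finset.sum_add_distrib]
    refine Finset.sum_le_sum fun i₀ _ => ?_
    rw [split h1 (i + 1) z c R _ (PWi_meas h1 (k + 1) i₀.succ z R)
      (fun r x => PW (k + 1) r (Fin.insertNth (α := fun _ => ℝ) i₀ z x))
      (fun r => PWi_meas h1 k i₀ z r) (PWi_cons i₀ z R)]
    refine add_le_add_right (le_of_eq ?_) _
    apply setLIntegral_congr_fun (measurableSet_Ioo.inter measurableSet_Ioi)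
    intro y hy
    simp only [Ind_big z c y i _ hy.2]

end IA12

theorem prfA12 (h1 : claimA1) (h5 : claimA5) (h6 : claimA6) (h7 : claimA7) (h9 : claimA9)
    (h11 : claimA11) : claimA12 := by
  intro k i z R c hz hR
  have key := IA11.core h1 h5 h6 h7 h9 z z (ENNReal.ofReal (4 / z)) hz hz.le
    (IA12.LL z) ?_ ?_ ?_ ?_ k i R c hR
  · have e : ∀ n : ℕ, (fun s : ℝ => IA11.Ph z R n (s + z)) = fun σ =>
        if σ + z < R then ENNReal.ofReal (((R - σ - z) / R) ^ 3) * AA z n (R - σ - z) else 0 := by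
      intro n
      funext s
      unfold IA11.Ph
      rw [← sub_sub]
    rw [e] at key
    exact key
  · intro k i R c hki
    unfold IA12.LL
    simp only [IA11.Ind_zero z c _ hki, zero_mul, lintegral_zero, Finset.sum_const_zero]
  · intro R c hR
    unfold IA12.LL
    rw [Fin.sum_univ_one]
    simp only [IA12.ins_zero, IA11.PW_cons]
    rw [lintegral_unique]
    have e : (volume : Measure (Fin 0 → ℝ)) Set.univ = 1 := by
      rw [volume_pi]
      exact Measure.pi_empty_univ _
    rw [e, mul_one]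
    unfold Ind Wo
    by_cases hc : 0 < c
    · rw [if_pos hc]
      by_cases hzR : z < R
      · rw [Set.indicator_of_mem (show z ∈ Set.Ioo 0 R from ⟨hz, hzR⟩)]
        change _ ≤ ENNReal.ofReal (4 / z) * IA11.Ph z R 0 (0 + z)
        rw [IA11.Ph_lt (by linarith : (0 : ℝ) + z < R)]
        simp only [PW, AA, mul_one, zero_add]
        calc _ ≤ 1 * wt R z := by
              gcongr
              split_ifs <;> simp
          _ ≤ _ := by
              rw [one_mul, wt, ← ENNReal.ofReal_mul (by positivity)]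
              apply ENNReal.ofReal_le_ofReal
              have h0 : 0 ≤ ((R - z) / R) ^ 3 := by
                have : 0 ≤ (R - z) / R := div_nonneg (by linarith) hR.le
                positivity
              have h1 : 4 / R ≤ 4 / z := by
                apply div_le_div_of_nonneg_left (by norm_num) hz hzR.le
              exact mul_le_mul_of_nonneg_right h1 h0
      · rw [Set.indicator_of_notMem (fun h => hzR h.2), mul_zero]
        exact zero_le
    · rw [if_neg hc, if_neg]
      · simp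
      · rintro ⟨-, h⟩
        simp at h
        exact hc h
  · intro k R c hR
    have := IA12.LL_step0 h1 h5 h11 k z R c hz
    rwa [pow_zero, mul_one] at this
  · intro k i R c hR
    exact IA12.LL_step h1 h5 h11 k i z R c hz

end Pool.Agent.Work.MP_122e00_nt.Four
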