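import Pool.Agent.Work.MP_122e00_nt.Four.Stmts

set_option autoImplicit false

/-!
# I14: sorted parts (four parts)
-/

namespace Pool.Agent.Work.MP_122e00_nt.Four

open Finset Filter Topology MeasureTheory

open scoped ENNReal ArithmeticFunction.vonMangoldt ArithmeticFunction.zeta

open Two Gen Sharp

namespace II14

/-- A point without marks. -/
noncomputable def emb (k : ℕ) (a : Fin 4 → ℝ) : Fin (k + 4) → ℝ := Fin.append (0 : Fin k → ℝ) a

theorem emb_comb (k : ℕ) (a b : Fin 4 → ℝ) (μ ν : ℝ) :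
    μ • emb k a + ν • emb k b = emb k (μ • a + ν • b) := by
  funext j
  refine Fin.addCases (fun j => ?_) (fun j => ?_) j
  · simp [emb]
  · simp [emb]

/-- The index of the vertex `q`. -/
def idx (k : ℕ) : Fin 4 → Option (Fin (k + 3)) :=
  ![some ⟨k, by omega⟩, some ⟨k + 1, by omega⟩, some ⟨k + 2, by omega⟩, none]

/-- The vertices: the marks, and the four points of `w`. -/
noncomputable def U (k : ℕ) (w : Fin 4 → Fin 4 → ℝ) : Option (Fin (k + 3)) → Fin (k + 4) → ℝ
  | some i => if i.val < k then (fun j => if j.val ≤ i.val then 1 / ((i.val : ℝ) + 1) else 0)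
      else emb k (w ⟨i.val - k, by have := i.isLt; omega⟩)
  | none => emb k (w 3)

theorem U_idx (k : ℕ) (w : Fin 4 → Fin 4 → ℝ) (q : Fin 4) : U k w (idx k q) = emb k (w q) := by
  fin_cases q
  · show (if k < k then _ else emb k (w ⟨k - k, _⟩)) = emb k (w 0)
    rw [if_neg (by omega)]
    congr 2
    exact Fin.ext (by simp)
  · show (if k + 1 < k then _ else emb k (w ⟨k + 1 - k, _⟩)) = emb k (w 1)
    rw [if_neg (by omega)]
    congr 2
    exact Fin.ext (by simp)
  · show (if k + 2 < k then _ else emb k (w ⟨k + 2 - k, _⟩)) = emb k (w 2)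
    rw [if_neg (by omega)]
    congr 2
    exact Fin.ext (by simp)
  · rfl

theorem U_low (k : ℕ) (w w' : Fin 4 → Fin 4 → ℝ) (i : Fin (k + 3)) (h : i.val < k) :
    U k w (some i) = U k w' (some i) := by
  simp [U, h]

theorem idx_ne (k : ℕ) (q : Fin 4) (i : Fin (k + 3)) (h : i.val < k) : some i ≠ idx k q := by
  fin_cases q
  · intro h2
    have := congrArg Fin.val (Option.some_injective _ h2)
    simp only at this
    omega
  · intro h2
    have := congrArg Fin.val (Option.some_injective _ h2)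
    simp only at this
    omega
  · intro h2
    have := congrArg Fin.val (Option.some_injective _ h2)
    simp only at this
    omega
  · simp [idx]

theorem idx_inj (k : ℕ) (p q : Fin 4) (h : idx k p = idx k q) : p = q := by
  fin_cases p <;> fin_cases q <;> simp [idx] at h ⊢

theorem cases_idx {k : ℕ} (o : Option (Fin (k + 3))) :
    (∃ i : Fin (k + 3), o = some i ∧ i.val < k) ∨ ∃ q, o = idx k q := by
  rcases o with _ | i
  · exact Or.inr ⟨3, rfl⟩
  · by_cases h : i.val < k
    · exact Or.inl ⟨i, rfl, h⟩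
    · have hi := i.isLt
      have h3 : i.val = k ∨ i.val = k + 1 ∨ i.val = k + 2 := by omega
      rcases h3 with h3 | h3 | h3
      · exact Or.inr ⟨0, congrArg some (Fin.ext h3)⟩
      · exact Or.inr ⟨1, congrArg some (Fin.ext h3)⟩
      · exact Or.inr ⟨2, congrArg some (Fin.ext h3)⟩

theorem upd (k : ℕ) (w : Fin 4 → Fin 4 → ℝ) (q : Fin 4) (a : Fin 4 → ℝ) :
    Function.update (U k w) (idx k q) (emb k a) = U k (Function.update w q a) := by
  funext o
  rcases cases_idx o with ⟨i, rfl, h⟩ | ⟨p, rfl⟩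
  · rw [Function.update_of_ne (idx_ne k q i h)]
    exact U_low k _ _ i h
  · rw [U_idx]
    by_cases hp : p = q
    · subst hp
      rw [Function.update_self, Function.update_self]
    · rw [Function.update_of_ne (fun h => hp (idx_inj k _ _ h)), Function.update_of_ne hp, U_idx]

section

variable {k : ℕ} (G : (Fin (k + 4) → ℝ) → ℝ≥0∞) (hG : Measurable G)

include hG

/-- Bisection of an edge. -/
theorem bis (w : Fin 4 → Fin 4 → ℝ) (p q : Fin 4) (hpq : p ≠ q) (μ : ℝ) (h0 : 0 ≤ μ)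
    (h1 : μ ≤ 1) : Chamber.EV (U k w) G =
      ENNReal.ofReal μ * Chamber.EV (U k (Function.update w p (μ • w p + (1 - μ) • w q))) G +
      ENNReal.ofReal (1 - μ) *
        Chamber.EV (U k (Function.update w q (μ • w p + (1 - μ) • w q))) G := by
  have h := Chamber.EV_bisect (U k w) G hG (idx k p) (idx k q)
    (fun h => hpq (idx_inj k _ _ h)) μ h0 h1
  rw [U_idx, U_idx, emb_comb, upd, upd] at h
  exact h

theorem swp (w : Fin 4 → Fin 4 → ℝ) (q : Fin 4) (hq : q ≠ 3) :
    Chamber.EV (U k (w ∘ Equiv.swap 3 q)) G = Chamber.EV (U k w) G := by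
  obtain ⟨i, hi⟩ : ∃ i, idx k q = some i := by
    fin_cases q
    · exact ⟨_, rfl⟩
    · exact ⟨_, rfl⟩
    · exact ⟨_, rfl⟩
    · exact absurd rfl hq
  rw [Chamber.EV_swap (U k w) G hG i]
  congr 1
  have h3 : (none : Option (Fin (k + 3))) = idx k 3 := rfl
  rw [← hi, h3]
  funext o
  rcases cases_idx o with ⟨j, rfl, h⟩ | ⟨p, rfl⟩
  · simp only [Function.comp]
    rw [Equiv.swap_apply_of_ne_of_ne (idx_ne k 3 j h) (idx_ne k q j h)]
    exact U_low k _ _ j h
  · simp only [Function.comp]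
    have h4 : Equiv.swap (idx k 3) (idx k q) (idx k p) = idx k (Equiv.swap 3 q p) := by
      by_cases hp3 : p = 3
      · subst hp3
        rw [Equiv.swap_apply_left, Equiv.swap_apply_left]
      · by_cases hpq : p = q
        · subst hpq
          rw [Equiv.swap_apply_right, Equiv.swap_apply_right]
        · rw [Equiv.swap_apply_of_ne_of_ne (fun h => hp3 (idx_inj k _ _ h))
            (fun h => hpq (idx_inj k _ _ h)), Equiv.swap_apply_of_ne_of_ne hp3 hpq]
    rw [h4, U_idx, U_idx]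
    rfl

theorem swp2 (w : Fin 4 → Fin 4 → ℝ) (p q : Fin 4) (hpq : p ≠ q) :
    Chamber.EV (U k (w ∘ Equiv.swap p q)) G = Chamber.EV (U k w) G := by
  by_cases hp : p = 3
  · subst hp
    exact swp G hG w q hpq.symm
  · by_cases hq : q = 3
    · subst hq
      rw [Equiv.swap_comm]
      exact swp G hG w p hpq
    · have h : ∀ p q : Fin 4, p ≠ q → p ≠ 3 → q ≠ 3 →
          Equiv.swap p q = Equiv.swap 3 p * Equiv.swap 3 q * Equiv.swap 3 p := by decide
      rw [h p q hpq hp hq]
      have e : w ∘ ⇑(Equiv.swap 3 p * Equiv.swap 3 q * Equiv.swap 3 p) =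
          ((w ∘ Equiv.swap 3 p) ∘ Equiv.swap 3 q) ∘ Equiv.swap 3 p := rfl
      rw [e, swp G hG _ p hp, swp G hG _ q hq, swp G hG _ p hp]

theorem perm (τ : Equiv.Perm (Fin 4)) : ∀ w : Fin 4 → Fin 4 → ℝ,
    Chamber.EV (U k (w ∘ τ)) G = Chamber.EV (U k w) G := by
  refine Equiv.Perm.swap_induction_on τ (fun w => rfl) ?_
  intro f x y hxy ih w
  have e : w ∘ ⇑(Equiv.swap x y * f) = (w ∘ Equiv.swap x y) ∘ f := rfl
  rw [e, ih, swp2 G hG w x y hxy]

end

theorem U_cast (k : ℕ) (w w' : Fin 4 → Fin 4 → ℝ) (o : Option (Fin (k + 3))) (j : Fin k) :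
    U k w o (Fin.castAdd 4 j) = U k w' o (Fin.castAdd 4 j) := by
  rcases cases_idx o with ⟨i, rfl, h⟩ | ⟨p, rfl⟩
  · rw [U_low k w w' i h]
  · rw [U_idx, U_idx]
    simp [emb]

theorem U_nat (k : ℕ) (w : Fin 4 → Fin 4 → ℝ) (σ : Equiv.Perm (Fin 4))
    (o : Option (Fin (k + 3))) (q : Fin 4) :
    U k (fun p i => w p (σ i)) o (Fin.natAdd k q) = U k w o (Fin.natAdd k (σ q)) := by
  rcases cases_idx o with ⟨i, rfl, h⟩ | ⟨p, rfl⟩
  · have h2 : ∀ (w : Fin 4 → Fin 4 → ℝ) (q : Fin 4), U k w (some i) (Fin.natAdd k q) = 0 := by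
      intro w q
      unfold U
      simp only
      rw [if_pos h, if_neg]
      simp only [Fin.val_natAdd]
      omega
    rw [h2, h2]
  · rw [U_idx, U_idx]
    simp [emb]

theorem sym {k : ℕ} (G : (Fin (k + 4) → ℝ) → ℝ≥0∞)
    (hs : ∀ (x : Fin k → ℝ) (v : Fin 4 → ℝ) (σ : Equiv.Perm (Fin 4)),
      G (Fin.append x (fun i => v (σ i))) = G (Fin.append x v)) (w : Fin 4 → Fin 4 → ℝ)
    (σ : Equiv.Perm (Fin 4)) :
    Chamber.EV (U k (fun p i => w p (σ i))) G = Chamber.EV (U k w) G := by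
  unfold Chamber.EV
  congr 1
  funext y
  set z := Chamber.bar (U k w) y with hz
  have h1 : z = Fin.append (px z) (ph z) := (Fin.append_castAdd_natAdd (f := z)).symm
  have h2 : Chamber.bar (U k (fun p i => w p (σ i))) y =
      Fin.append (px z) (fun i => ph z (σ i)) := by
    funext j
    refine Fin.addCases (fun j => ?_) (fun q => ?_) j
    · rw [Fin.append_left, hz]
      unfold px Chamber.bar
      simp only [Pi.add_apply, Finset.sum_apply, Pi.smul_apply]
      congr 1
      · refine Finset.sum_congr rfl fun i _ => ?_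
        rw [U_cast k _ w]
      · rw [U_cast k _ w]
    · rw [Fin.append_right, hz]
      unfold ph Chamber.bar
      simp only [Pi.add_apply, Finset.sum_apply, Pi.smul_apply, U_nat]
  rw [h2, hs, ← h1]

/-- Exchange of vertices and coordinates. -/
theorem rel {k : ℕ} (G : (Fin (k + 4) → ℝ) → ℝ≥0∞) (hG : Measurable G)
    (hs : ∀ (x : Fin k → ℝ) (v : Fin 4 → ℝ) (σ : Equiv.Perm (Fin 4)),
      G (Fin.append x (fun i => v (σ i))) = G (Fin.append x v)) (w w' : Fin 4 → Fin 4 → ℝ)
    (τ σ : Equiv.Perm (Fin 4)) (h : ∀ p i, w' p i = w (τ p) (σ i)) :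
    Chamber.EV (U k w') G = Chamber.EV (U k w) G := by
  have e : w' = fun p i => (w ∘ τ) p (σ i) := by
    funext p i
    exact h p i
  rw [e, sym G hs (w ∘ τ) σ, perm G hG τ w]

/-- The points given by a matrix of natural numbers, in units of `1 / 12`. -/
noncomputable def Wm (M : Fin 4 → Fin 4 → ℕ) : Fin 4 → Fin 4 → ℝ := fun p i => (M p i : ℝ) / 12

/-- The unsorted parts. -/
def M0 : Fin 4 → Fin 4 → ℕ := ![![12, 0, 0, 0], ![0, 12, 0, 0], ![0, 0, 12, 0], ![0, 0, 0, 12]]

/-- The sorted parts. -/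
def MS : Fin 4 → Fin 4 → ℕ := ![![12, 0, 0, 0], ![6, 6, 0, 0], ![4, 4, 4, 0], ![3, 3, 3, 3]]

/-- The unsorted parts. -/
noncomputable def W0 : Fin 4 → Fin 4 → ℝ := Wm M0

/-- The sorted parts. -/
noncomputable def WS : Fin 4 → Fin 4 → ℝ := Wm MS

theorem VU_eq (k : ℕ) : VU k = U k W0 := by
  funext o
  rcases cases_idx o with ⟨i, rfl, h⟩ | ⟨p, rfl⟩
  · funext j
    simp [U, VU, h]
  · rw [U_idx]
    funext j
    refine Fin.addCases (fun j => ?_) (fun q => ?_) j
    · have hj := j.isLt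
      simp only [emb, Fin.append_left, Pi.zero_apply]
      fin_cases p
      · show (if k < k then _ else if (Fin.castAdd 4 j).val = k then (1 : ℝ) else 0) = 0
        rw [if_neg (by omega), if_neg (by simp only [Fin.val_castAdd]; omega)]
      · show (if k + 1 < k then _ else if (Fin.castAdd 4 j).val = k + 1 then (1 : ℝ) else 0) = 0
        rw [if_neg (by omega), if_neg (by simp only [Fin.val_castAdd]; omega)]
      · show (if k + 2 < k then _ else if (Fin.castAdd 4 j).val = k + 2 then (1 : ℝ) else 0) = 0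
        rw [if_neg (by omega), if_neg (by simp only [Fin.val_castAdd]; omega)]
      · show (if (Fin.castAdd 4 j).val = k + 3 then (1 : ℝ) else 0) = 0
        rw [if_neg (by simp only [Fin.val_castAdd]; omega)]
    · simp only [emb, Fin.append_right]
      fin_cases p
      · show (if k < k then _ else if (Fin.natAdd k q).val = k then (1 : ℝ) else 0) = W0 0 q
        rw [if_neg (by omega)]
        fin_cases q <;> simp [W0, Wm, M0]
      · show (if k + 1 < k then _ else if (Fin.natAdd k q).val = k + 1 then (1 : ℝ) else 0) =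
          W0 1 q
        rw [if_neg (by omega)]
        fin_cases q <;> simp [W0, Wm, M0]
      · show (if k + 2 < k then _ else if (Fin.natAdd k q).val = k + 2 then (1 : ℝ) else 0) =
          W0 2 q
        rw [if_neg (by omega)]
        fin_cases q <;> simp [W0, Wm, M0]
      · show (if (Fin.natAdd k q).val = k + 3 then (1 : ℝ) else 0) = W0 3 q
        fin_cases q <;> simp [W0, Wm, M0]

theorem V1_eq (k : ℕ) : V1 k = U k WS := by
  funext o
  rcases cases_idx o with ⟨i, rfl, h⟩ | ⟨p, rfl⟩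
  · funext j
    simp [U, V1, V0, h]
  · rw [U_idx]
    have hV : ∀ j, V1 k (idx k p) j =
        if k ≤ j.val ∧ j.val ≤ k + p.val then 1 / ((p.val : ℝ) + 1) else 0 := by
      intro j
      fin_cases p
      · show (if k < k then _ else if k ≤ j.val ∧ j.val ≤ k then 1 / ((k : ℝ) - k + 1) else 0) = _
        rw [if_neg (by omega)]
        simp
      · show (if k + 1 < k then _ else if k ≤ j.val ∧ j.val ≤ k + 1 then
          1 / (((k + 1 : ℕ) : ℝ) - k + 1) else 0) = _
        rw [if_neg (by omega)]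
        push_cast
        simp
      · show (if k + 2 < k then _ else if k ≤ j.val ∧ j.val ≤ k + 2 then
          1 / (((k + 2 : ℕ) : ℝ) - k + 1) else 0) = _
        rw [if_neg (by omega)]
        push_cast
        simp
      · show (if k + 3 < k then _ else if k ≤ j.val ∧ j.val ≤ k + 3 then
          1 / (((k + 3 : ℕ) : ℝ) - k + 1) else 0) = _
        rw [if_neg (by omega)]
        push_cast
        simp
    funext j
    rw [hV]
    refine Fin.addCases (fun j => ?_) (fun q => ?_) j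
    · have hj := j.isLt
      simp only [emb, Fin.append_left, Pi.zero_apply]
      rw [if_neg (by simp only [Fin.val_castAdd]; omega)]
    · simp only [emb, Fin.append_right, Fin.val_natAdd]
      fin_cases p <;> fin_cases q <;> simp [WS, Wm, MS] <;> norm_num

/-- A permutation of the four indices. -/
def prm (f g : Fin 4 → Fin 4) (h1 : ∀ i, g (f i) = i) (h2 : ∀ i, f (g i) = i) :
    Equiv.Perm (Fin 4) := ⟨f, g, h1, h2⟩

/-- One step: the new vertex is `a / d` of vertex `p` and `b / d` of vertex `q`, and both parts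
are images of the simplex `C`. -/
theorem step {k : ℕ} (G : (Fin (k + 4) → ℝ) → ℝ≥0∞) (hG : Measurable G)
    (M A B : Fin 4 → Fin 4 → ℕ) (p q : Fin 4) (a b d : ℕ) (x : ℝ≥0∞) (hpq : p ≠ q) (hd : 0 < d)
    (hab : a + b = d) (hA : ∀ i, d * A p i = a * M p i + b * M q i)
    (hB : ∀ i, d * B q i = a * M p i + b * M q i) (hA' : ∀ r, r ≠ p → ∀ i, A r i = M r i)
    (hB' : ∀ r, r ≠ q → ∀ i, B r i = M r i) (h1 : Chamber.EV (U k (Wm A)) G = x)
    (h2 : Chamber.EV (U k (Wm B)) G = x) : Chamber.EV (U k (Wm M)) G = x := by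
  have hd' : (0 : ℝ) < d := by exact_mod_cast hd
  have hab' : (a : ℝ) + b = d := by exact_mod_cast hab
  have hμ : 1 - (a : ℝ) / d = b / d := by
    field_simp
    linarith
  have hμ1 : (a : ℝ) / d ≤ 1 := by
    rw [div_le_one hd']
    have : (0 : ℝ) ≤ b := Nat.cast_nonneg b
    linarith
  have hμ0 : (0 : ℝ) ≤ (a : ℝ) / d := by positivity
  have key : ∀ (C : Fin 4 → Fin 4 → ℕ) (r : Fin 4),
      (∀ i, d * C r i = a * M p i + b * M q i) → (∀ s, s ≠ r → ∀ i, C s i = M s i) →
      Function.update (Wm M) r (((a : ℝ) / d) • Wm M p + (1 - (a : ℝ) / d) • Wm M q) = Wm C := by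
    intro C r hC hC'
    funext s i
    by_cases hs : s = r
    · subst hs
      rw [Function.update_self, hμ]
      have h3 : (d : ℝ) * C s i = a * M p i + b * M q i := by exact_mod_cast hC i
      simp only [Pi.add_apply, Pi.smul_apply, smul_eq_mul, Wm]
      field_simp
      linarith
    · rw [Function.update_of_ne hs]
      simp only [Wm, hC' s hs i]
  rw [bis G hG (Wm M) p q hpq _ hμ0 hμ1, key A p hA hA', key B q hB hB', h1, h2, ← add_mul,
    ← ENNReal.ofReal_add hμ0 (by linarith)]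
  simp

theorem rel' {k : ℕ} (G : (Fin (k + 4) → ℝ) → ℝ≥0∞) (hG : Measurable G)
    (hs : ∀ (x : Fin k → ℝ) (v : Fin 4 → ℝ) (σ : Equiv.Perm (Fin 4)),
      G (Fin.append x (fun i => v (σ i))) = G (Fin.append x v)) (M M' : Fin 4 → Fin 4 → ℕ)
    (τ σ : Equiv.Perm (Fin 4)) (h : ∀ p i, M' p i = M (τ p) (σ i)) :
    Chamber.EV (U k (Wm M')) G = Chamber.EV (U k (Wm M)) G :=
  rel G hG hs (Wm M) (Wm M') τ σ fun p i => by simp only [Wm, h]

end II14

open II14 in
theorem prfI14 : claimI14 := by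
  intro k G hG hs
  rw [VU_eq, V1_eq]
  unfold W0 WS
  have s3b : Chamber.EV (U k (Wm ![![12, 0, 0, 0], ![4, 4, 0, 4], ![3, 3, 3, 3],
      ![0, 0, 0, 12]])) G = Chamber.EV (U k (Wm MS)) G :=
    step G hG _ ![![6, 0, 0, 6], ![4, 4, 0, 4], ![3, 3, 3, 3], ![0, 0, 0, 12]]
      ![![12, 0, 0, 0], ![4, 4, 0, 4], ![3, 3, 3, 3], ![6, 0, 0, 6]] 0 3 1 1 2 _ (by decide)
      (by decide) (by decide) (by decide) (by decide) (by decide) (by decide)
      (rel' G hG hs MS _ (prm ![1, 2, 3, 0] ![3, 0, 1, 2] (by decide) (by decide))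
        (prm ![1, 2, 3, 0] ![3, 0, 1, 2] (by decide) (by decide)) (by decide))
      (rel' G hG hs MS _ (prm ![0, 2, 3, 1] ![0, 3, 1, 2] (by decide) (by decide))
        (prm ![0, 2, 3, 1] ![0, 3, 1, 2] (by decide) (by decide)) (by decide))
  have s3a : Chamber.EV (U k (Wm ![![12, 0, 0, 0], ![6, 6, 0, 0], ![3, 3, 3, 3],
      ![0, 0, 0, 12]])) G = Chamber.EV (U k (Wm MS)) G :=
    step G hG _ ![![12, 0, 0, 0], ![6, 6, 0, 0], ![3, 3, 3, 3], ![4, 4, 0, 4]]
      ![![12, 0, 0, 0], ![4, 4, 0, 4], ![3, 3, 3, 3], ![0, 0, 0, 12]] 3 1 1 2 3 _ (by decide)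
      (by decide) (by decide) (by decide) (by decide) (by decide) (by decide)
      (rel' G hG hs MS _ (prm ![0, 1, 3, 2] ![0, 1, 3, 2] (by decide) (by decide))
        (prm ![0, 1, 3, 2] ![0, 1, 3, 2] (by decide) (by decide)) (by decide)) s3b
  have s3 : Chamber.EV (U k (Wm ![![12, 0, 0, 0], ![6, 6, 0, 0], ![4, 4, 4, 0],
      ![0, 0, 0, 12]])) G = Chamber.EV (U k (Wm MS)) G :=
    step G hG _ MS ![![12, 0, 0, 0], ![6, 6, 0, 0], ![3, 3, 3, 3], ![0, 0, 0, 12]] 3 2 1 3 4 _
      (by decide) (by decide) (by decide) (by decide) (by decide) (by decide) (by decide) rfl s3a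
  have s2a : Chamber.EV (U k (Wm ![![12, 0, 0, 0], ![4, 4, 4, 0], ![0, 0, 12, 0],
      ![0, 0, 0, 12]])) G = Chamber.EV (U k (Wm ![![12, 0, 0, 0], ![6, 6, 0, 0], ![4, 4, 4, 0],
      ![0, 0, 0, 12]])) G :=
    step G hG _ ![![6, 0, 6, 0], ![4, 4, 4, 0], ![0, 0, 12, 0], ![0, 0, 0, 12]]
      ![![12, 0, 0, 0], ![4, 4, 4, 0], ![6, 0, 6, 0], ![0, 0, 0, 12]] 0 2 1 1 2 _ (by decide)
      (by decide) (by decide) (by decide) (by decide) (by decide) (by decide)
      (rel' G hG hs _ _ (prm ![1, 2, 0, 3] ![2, 0, 1, 3] (by decide) (by decide))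
        (prm ![1, 2, 0, 3] ![2, 0, 1, 3] (by decide) (by decide)) (by decide))
      (rel' G hG hs _ _ (prm ![0, 2, 1, 3] ![0, 2, 1, 3] (by decide) (by decide))
        (prm ![0, 2, 1, 3] ![0, 2, 1, 3] (by decide) (by decide)) (by decide))
  have s2 : Chamber.EV (U k (Wm ![![12, 0, 0, 0], ![6, 6, 0, 0], ![0, 0, 12, 0],
      ![0, 0, 0, 12]])) G = Chamber.EV (U k (Wm ![![12, 0, 0, 0], ![6, 6, 0, 0], ![4, 4, 4, 0],
      ![0, 0, 0, 12]])) G :=
    step G hG _ ![![12, 0, 0, 0], ![6, 6, 0, 0], ![4, 4, 4, 0], ![0, 0, 0, 12]]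
      ![![12, 0, 0, 0], ![4, 4, 4, 0], ![0, 0, 12, 0], ![0, 0, 0, 12]] 2 1 1 2 3 _
      (by decide) (by decide) (by decide) (by decide) (by decide) (by decide) (by decide) rfl s2a
  have s1 : Chamber.EV (U k (Wm M0)) G = Chamber.EV (U k (Wm ![![12, 0, 0, 0], ![6, 6, 0, 0],
      ![0, 0, 12, 0], ![0, 0, 0, 12]])) G :=
    step G hG _ ![![6, 6, 0, 0], ![0, 12, 0, 0], ![0, 0, 12, 0], ![0, 0, 0, 12]]
      ![![12, 0, 0, 0], ![6, 6, 0, 0], ![0, 0, 12, 0], ![0, 0, 0, 12]] 0 1 1 1 2 _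
      (by decide) (by decide) (by decide) (by decide) (by decide) (by decide) (by decide)
      (rel' G hG hs _ _ (prm ![1, 0, 2, 3] ![1, 0, 2, 3] (by decide) (by decide))
        (prm ![1, 0, 2, 3] ![1, 0, 2, 3] (by decide) (by decide)) (by decide)) rfl
  rw [s1, s2, s3]

end Pool.Agent.Work.MP_122e00_nt.Four
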