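import Pool.Agent.Work.MP_122e00_nt.Four.Stmts

set_option autoImplicit false

/-!
# I16: the final bound with hidden marks (four parts)
-/

namespace Pool.Agent.Work.MP_122e00_nt.Four

open Finset Filter Topology MeasureTheory

open scoped ENNReal

open Two Gen Sharp

namespace II16

theorem px_append {k : ℕ} (x : Fin k → ℝ) (v : Fin 4 → ℝ) :
    px (Fin.append x v : Fin (k + 4) → ℝ) = x := by
  funext i
  unfold px
  exact Fin.append_left x v i

theorem ph_append {k : ℕ} (x : Fin k → ℝ) (v : Fin 4 → ℝ) :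
    ph (Fin.append x v : Fin (k + 4) → ℝ) = v := by
  funext i
  unfold ph
  exact Fin.append_right x v i

theorem measurable_px {k : ℕ} : Measurable (px : (Fin (k + 4) → ℝ) → Fin k → ℝ) := by
  unfold px
  fun_prop

theorem measurable_ph {k : ℕ} : Measurable (ph : (Fin (k + 4) → ℝ) → Fin 4 → ℝ) := by
  unfold ph
  fun_prop

theorem measurable_psw (a b : ℝ) (s : ℕ) (θ : ℝ) : Measurable (psw a b s θ) := by
  unfold psw
  refine Measurable.indicator (by fun_prop) ?_
  have h1 : MeasurableSet {y : Fin s → ℝ | ∀ i, 0 ≤ y i} := by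
    rw [Set.ofPred_forall]
    exact MeasurableSet.iInter fun i => measurableSet_le measurable_const (measurable_pi_apply i)
  have h2 : MeasurableSet {y : Fin s → ℝ | ∑ i, y i ≤ 1 / 2 - θ} :=
    measurableSet_le (by fun_prop) measurable_const
  exact h1.inter h2

theorem measurable_gs (a b : ℝ) (s : ℕ) (θ : ℝ) : Measurable (gs (psw a b s θ)) := by
  unfold gs
  refine Finset.measurable_sum _ fun i _ => ?_
  exact (measurable_psw a b s θ).comp (by fun_prop)

theorem be_zero (b : ℕ) : be b 0 = 1 := by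
  rw [be]

theorem be_succ (b t : ℕ) : be b (t + 1) = b * ∑ i ∈ Finset.range (t + 1),
    (t.choose i : ℝ) * be b (t - i) / ((i : ℝ) + 1) := by
  rw [be, Finset.sum_attach (Finset.range (t + 1))
    (fun i => (t.choose i : ℝ) * be b (t - i) / ((i : ℝ) + 1))]

theorem be_nonneg (b t : ℕ) : 0 ≤ be b t := by
  induction t using Nat.strong_induction_on with
  | _ t ih =>
    cases t with
    | zero => rw [be_zero]; norm_num
    | succ t =>
      rw [be_succ]
      refine mul_nonneg (Nat.cast_nonneg _) (Finset.sum_nonneg fun i hi => ?_)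
      have := ih (t - i) (by omega)
      positivity

theorem Bt_nonneg (b t : ℕ) (S z : ℝ) (hS : 0 ≤ S) (hz : 0 ≤ z) : 0 ≤ Bt b t S z := by
  unfold Bt
  refine Finset.sum_nonneg fun j _ => ?_
  have := be_nonneg b j
  positivity

theorem pg_nonneg (R N G : ℝ) (hR : 1 ≤ R) (hN : 0 ≤ N) : 0 ≤ pg R N G := by
  unfold pg
  split_ifs with h
  · positivity
  · have : 0 ≤ R - 1 := by linarith
    positivity

theorem psw_symm (a b : ℝ) (s : ℕ) (θ : ℝ) (y : Fin s → ℝ) (τ : Equiv.Perm (Fin s)) :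
    psw a b s θ (fun i => y (τ i)) = psw a b s θ y := by
  have h1 : ∑ i, y (τ i) = ∑ i, y i := Equiv.sum_comp τ y
  have h2 : (∀ i, 0 ≤ y (τ i)) ↔ ∀ i, 0 ≤ y i := by
    constructor
    · intro h i
      have := h (τ.symm i)
      rwa [Equiv.apply_symm_apply] at this
    · intro h i
      exact h _
  unfold psw
  by_cases h : (∀ i, 0 ≤ y i) ∧ ∑ i, y i ≤ 1 / 2 - θ
  · rw [Set.indicator_of_mem (show y ∈ {y : Fin s → ℝ | (∀ i, 0 ≤ y i) ∧
        ∑ i, y i ≤ 1 / 2 - θ} from h),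
      Set.indicator_of_mem (show (fun i => y (τ i)) ∈ {y : Fin s → ℝ | (∀ i, 0 ≤ y i) ∧
        ∑ i, y i ≤ 1 / 2 - θ} from ⟨h2.2 h.1, by rw [h1]; exact h.2⟩)]
    rw [h1]
  · rw [Set.indicator_of_notMem, Set.indicator_of_notMem]
    · exact fun h' => h h'
    · intro h'
      refine h ⟨h2.1 h'.1, ?_⟩
      have := h'.2
      rw [h1] at this
      exact this

/-- the integrand -/
noncomputable def GG (m T : ℕ) (R : ℝ) (p : Fin (T + 1 + 4) → ℝ) : ℝ≥0∞ :=
  ENNReal.ofReal (pg R ((((3 : ℕ) : ℝ) + 1) ^ (T + 1)) (Pl (g4 0) (px p) (ph p))) *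
    ∑ t ∈ Finset.range (m + 1), ENNReal.ofReal ((m.choose t : ℝ) * Qs (T + 1) (m - t) (px p)) *
      mu t (ph p) (px p (Fin.last T))

theorem measurable_GG (hQ3 : Sharp.claimQ3) (hI6 : Sharp.claimI6) (m T : ℕ) (R : ℝ) :
    Measurable (GG m T R) := by
  have hg : Measurable (g4 0) := measurable_gs _ _ _ _
  obtain ⟨-, hPl, hpg, hmu⟩ := hI6 3 (T + 1) 0 R (g4 0) hg
  have hph : Measurable (fun p : Fin (T + 1 + 4) → ℝ => (ph p : Fin (3 + 1) → ℝ)) :=
    measurable_ph
  have h1 : Measurable (fun p : Fin (T + 1 + 4) → ℝ => (px p, (ph p : Fin (3 + 1) → ℝ))) :=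
    Measurable.prodMk measurable_px hph
  have h2 := Measurable.comp hPl h1
  unfold Function.comp at h2
  have h3 := Measurable.comp (hpg ((((3 : ℕ) : ℝ) + 1) ^ (T + 1))) h2
  unfold Function.comp at h3
  have h4 : Measurable (fun p : Fin (T + 1 + 4) → ℝ =>
      ((ph p : Fin (3 + 1) → ℝ), px p (Fin.last T))) :=
    Measurable.prodMk hph ((measurable_pi_apply (Fin.last T)).comp measurable_px)
  have h5 := Measurable.ennreal_ofReal h3
  have h6 : ∀ t : ℕ, Measurable (fun p : Fin (T + 1 + 4) → ℝ =>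
      ENNReal.ofReal ((m.choose t : ℝ) * Qs (T + 1) (m - t) (px p))) := fun t => by
    have h := (hQ3.2.1 (T + 1) (m - t)).2.measurable.comp (measurable_px (k := T + 1))
    exact Measurable.ennreal_ofReal (Measurable.const_mul h _)
  have h7 : ∀ t : ℕ, Measurable (fun p : Fin (T + 1 + 4) → ℝ =>
      mu (s := 3) t (ph p) (px p (Fin.last T))) := fun t => by
    unfold mu
    refine Finset.measurable_sum _ fun l _ => ?_
    have h := Measurable.comp (hmu l t) h4
    exact h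
  have h8 := Finset.measurable_sum (Finset.range (m + 1))
    (fun t _ => Measurable.mul (h6 t) (h7 t))
  exact Measurable.mul h5 h8

theorem symm_GG (hI12 : Sharp.claimI12) (m T : ℕ) (R : ℝ) (x : Fin (T + 1) → ℝ) (v : Fin 4 → ℝ)
    (σ : Equiv.Perm (Fin 4)) :
    GG m T R (Fin.append x (fun i => v (σ i))) = GG m T R (Fin.append x v) := by
  unfold GG
  rw [px_append, px_append, ph_append, ph_append]
  have h1 : Pl (g4 0) x (fun i => v (σ i)) = Pl (g4 0) x v :=
    hI12.2 3 (T + 1) (psw 2 0 3 0) (fun y τ => psw_symm _ _ _ _ y τ) x v σ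
  rw [h1]
  congr 1
  refine Finset.sum_congr rfl fun t _ => ?_
  rw [hI12.1 3 t v (x (Fin.last T)) σ]

theorem V0_nonneg (k : ℕ) (i j : Fin (k + 4)) : 0 ≤ V0 k i j := by
  unfold V0
  split_ifs with h1 h2 h3
  · positivity
  · exact le_rfl
  · have : (k : ℝ) ≤ (i.val : ℝ) := by exact_mod_cast not_lt.1 h1
    refine div_nonneg zero_le_one ?_
    linarith
  · exact le_rfl

theorem bar_nonneg (k : ℕ) (y : Fin (k + 3) → ℝ) (hy : y ∈ Chamber.T (Fin (k + 3)))
    (j : Fin (k + 4)) : 0 ≤ Chamber.bar (V1 k) y j := by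
  unfold Chamber.bar
  rw [Pi.add_apply, Finset.sum_apply, Pi.smul_apply]
  refine add_nonneg (Finset.sum_nonneg fun i _ => ?_) ?_
  · rw [Pi.smul_apply, smul_eq_mul]
    exact mul_nonneg (hy.1 i) (V0_nonneg k _ j)
  · rw [smul_eq_mul]
    exact mul_nonneg (by linarith [hy.2]) (V0_nonneg k _ j)

theorem sum_le (hQ3 : Sharp.claimQ3) (hI10 : Sharp.claimI10) (m T b : ℕ) (hb : b ≤ 4)
    (p : Fin (T + 1 + 4) → ℝ) (hp : ∀ j, 0 ≤ p j) :
    ∑ t ∈ Finset.range (m + 1), ENNReal.ofReal ((m.choose t : ℝ) * Qs (T + 1) (m - t) (px p)) *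
      mu t (ph p) (px p (Fin.last T)) ≤ ENNReal.ofReal (Pb m b p) := by
  have hpx : ∀ i, 0 ≤ px p i := fun i => hp _
  have hph : ∀ i, 0 ≤ ph p i := fun i => hp _
  have hS : 0 ≤ ∑ q : Fin 4, if b ≤ q.val then ph p q else 0 := by
    refine Finset.sum_nonneg fun q _ => ?_
    split_ifs
    · exact hph q
    · exact le_rfl
  have hQ : ∀ t, 0 ≤ (m.choose t : ℝ) * Qs (T + 1) (m - t) (px p) := fun t =>
    mul_nonneg (Nat.cast_nonneg _) (hQ3.1 (T + 1) (m - t) (px p) hpx).2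
  unfold Pb
  rw [ENNReal.ofReal_sum_of_nonneg (fun t _ => mul_nonneg (hQ t)
    (Bt_nonneg b t _ _ hS (hpx _)))]
  refine Finset.sum_le_sum fun t _ => ?_
  rw [ENNReal.ofReal_mul (hQ t)]
  gcongr
  have h := hI10 3 t (ph p) (px p (Fin.last T))
    (Finset.univ.filter fun q : Fin 4 => b ≤ q.val) (hpx _) hph
  have hc : 3 + 1 - (Finset.univ.filter fun q : Fin 4 => b ≤ q.val).card = b := by
    interval_cases b <;> decide
  rw [hc, Finset.sum_filter] at h
  exact h

theorem GG_le (hQ3 : Sharp.claimQ3) (hI10 : Sharp.claimI10) (m T : ℕ) (R : ℝ) (hR : 1 ≤ R)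
    (p : Fin (T + 1 + 4) → ℝ) (hp : ∀ j, 0 ≤ p j) :
    GG m T R p ≤ ENNReal.ofReal (Jh m T R p) := by
  have e : (((3 : ℕ) : ℝ) + 1) ^ (T + 1) = 4 ^ (T + 1) := by norm_num
  have hpg : 0 ≤ pg R (4 ^ (T + 1)) (Pl (g4 0) (px p) (ph p)) :=
    pg_nonneg _ _ _ hR (by positivity)
  unfold GG Jh
  rw [e, ENNReal.ofReal_mul' hpg, mul_comm]
  gcongr
  have hmin : ∀ a b : ℝ, ENNReal.ofReal (min a b) = min (ENNReal.ofReal a) (ENNReal.ofReal b) :=
    fun a b => (ENNReal.ofReal_mono).map_min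
  unfold Pm
  rw [hmin, hmin, hmin, hmin]
  exact le_min (le_min (le_min (sum_le hQ3 hI10 m T 0 (by norm_num) p hp)
    (sum_le hQ3 hI10 m T 1 (by norm_num) p hp))
    (le_min (sum_le hQ3 hI10 m T 2 (by norm_num) p hp) (sum_le hQ3 hI10 m T 3 (by norm_num) p hp)))
    (sum_le hQ3 hI10 m T 4 (by norm_num) p hp)

end II16

open II16 in
theorem prfI16 : Sharp.claimQ3 → Sharp.claimI6 → Sharp.claimI10 → Sharp.claimI11 →
    Sharp.claimI12 → claimI13 → claimI14 → claimI16 := by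
  intro hQ3 hI6 hI10 hI11 hI12 hI13 hI14 m T K R hR
  have hg : Measurable (g4 0) := measurable_gs _ _ _ _
  refine (hI11 3 m T R (g4 0) hg hR K).trans ?_
  have h1 := hI13 (T + 1) (GG m T R) (measurable_GG hQ3 hI6 m T R)
  have h2 := hI14 (T + 1) (GG m T R) (measurable_GG hQ3 hI6 m T R) (symm_GG hI12 m T R)
  have h3 : ∀ y : Fin (T + 1) ⊕ Fin 3 → ℝ,
      ENNReal.ofReal (pg R ((((3 : ℕ) : ℝ) + 1) ^ (T + 1)) (Pl (g4 0) (xs y) (vs y))) *
      ∑ t ∈ Finset.range (m + 1), ENNReal.ofReal ((m.choose t : ℝ) * Qs (T + 1) (m - t) (xs y)) *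
        mu t (vs y) (xs y (Fin.last T)) = GG m T R (Fin.append (xs y) (vs y)) := by
    intro y
    unfold GG
    rw [px_append, ph_append]
  simp only [h3]
  rw [h1, h2]
  unfold JH
  gcongr
  unfold Chamber.EV
  refine setLIntegral_mono' (Chamber.measurableSet_T _) fun y hy => ?_
  exact GG_le hQ3 hI10 m T R hR _ (bar_nonneg (T + 1) y hy)

end Pool.Agent.Work.MP_122e00_nt.Four
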