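import Pool.Agent.Work.MP_122e00_nt.Sharp.Main
import Pool.Agent.Work.MP_122e00_nt.Gen.ItemE9
import Pool.Agent.Work.MP_122e00_nt.Bd.B44
import Pool.Agent.Work.MP_122e00_nt.Four.Final
import Pool.Agent.Work.MP_122e00_nt.Bdx.B01
import Pool.Agent.Work.MP_122e00_nt.Four.ItemI13
import Pool.Agent.Work.MP_122e00_nt.Four.ItemI14
import Pool.Agent.Work.MP_122e00_nt.Bdx.B02
import Pool.Agent.Work.MP_122e00_nt.Four.ItemI16
import Pool.Agent.Work.MP_122e00_nt.Four.ItemA11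
import Pool.Agent.Work.MP_122e00_nt.Four.ItemA12
import Pool.Agent.Work.MP_122e00_nt.Bdx.B08

set_option autoImplicit false

/-!
# Four parts: assembly
-/

namespace Pool.Agent.Work.MP_122e00_nt.Four

open Finset Filter

open scoped ENNReal

open Two Gen Sharp

/-! ### the tail -/

theorem mT3 : claimT3 := Tb.tst_spec _ _ _ Tb.tst_true

theorem mA4 : claimA4 := prfA4 prfA1 prfA3

theorem mA5 : claimA5 := prfA5 prfA1

theorem mA6 : claimA6 := prfA6 prfA1 mA5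

theorem mA7 : claimA7 := prfA7 prfA1

theorem mA11 : claimA11 := prfA11 prfA1 mA5 mA6 mA7 prfA9

theorem mA12 : claimA12 := prfA12 prfA1 mA5 mA6 mA7 prfA9 mA11

theorem mA13 : claimA13 := prfA13 prfA1 (prfA2 Gen.prfB8) mA4 mA5 prfA8 prfA10 mA12

theorem mB3 : claimB3 := prfB3 prfA10 (prfB2 prfA10)

theorem mB4 : claimB4 := prfB4 prfT1 prfT2 mT3 (prfB1 prfA10) mB3

theorem mB6 : claimB6 := prfB6 (prfB5 Gen.prfB8 Gen.prfE9)

theorem mB7 : claimB7 := prfB7 mA13 mB4 mB6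

/-! ### the limit functionals -/

theorem nI15 : claimI15 := prfI15 Sharp.prfI6 Sharp.mI7 Sharp.prfI12 prfI13 prfI14 Sharp.prfQ3

theorem nI16 : claimI16 :=
  prfI16 Sharp.prfQ3 Sharp.prfI6 Sharp.mI10 Sharp.mI11 Sharp.prfI12 prfI13 prfI14

theorem num : ∑ k ∈ Finset.range (11 + 1), IK 3 11 (2 + 1) 128 2 0 0 k ≤ 9323 / 100000 :=
  num_of Sharp.mI1 nI15 nI16 11 2 128 (9323 / 100000) (by norm_num) (by norm_num) (by norm_num)
    (by norm_num) Sharp.mF1 Cx.certBound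

/-- The two-sided bound for `r = 4`. -/
theorem main (h : ℕ) (hh : h ≠ 0) :
    ∀ᶠ X : ℝ in atTop, |Gen.DS 3 h 0 ⌊X⌋₊ - Csing 3 h / 36 * (X * (Real.log X) ^ (2 * 3))| ≤
      (581 / 1000) * (Csing 3 h / 36) * (X * (Real.log X) ^ (2 * 3)) :=
  final_of Sharp.mD6 Sharp.mF1 Sharp.prfF3 Sharp.mN1 Sharp.mI0 (Gen.mAT2' Gen.prfN0) Gen.prfX0
    Gen.mE8 mB7 11 (2 + 1) 128 (9323 / 100000) (by norm_num) le_rfl num h hh (581 / 1000)
    (by norm_num)

end Pool.Agent.Work.MP_122e00_nt.Four
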