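import Pool.Agent.Work.MP_122e00_nt.Four.StmtsTail

set_option autoImplicit false

/-!
# Item A11: exactly `i` big marks among `k` picks
-/

namespace Pool.Agent.Work.MP_122e00_nt.Four

open Finset Filter Topology MeasureTheory

open scoped ENNReal

open Two Gen Sharp

namespace IA11

open Classical in
/-- The density of the remaining picks, as a function of the sum of the big ones. -/
noncomputable def Ph (z R : ℝ) (n : ℕ) (t : ℝ) : ℝ≥0∞ :=
  if t < R then ENNReal.ofReal (((R - t) / R) ^ 3) * AA z n (R - t) else 0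

theorem Ph_lt {z R t : ℝ} {n : ℕ} (h : t < R) :
    Ph z R n t = ENNReal.ofReal (((R - t) / R) ^ 3) * AA z n (R - t) := by
  rw [Ph, if_pos h]

theorem Ph_ge {z R t : ℝ} {n : ℕ} (h : R ≤ t) : Ph z R n t = 0 := by
  rw [Ph, if_neg (not_lt.2 h)]

theorem Ph_meas (h1 : claimA1) (z : ℝ) (n : ℕ) :
    Measurable fun q : ℝ × ℝ => Ph z q.1 n q.2 := by
  unfold Ph
  refine Measurable.ite (measurableSet_lt measurable_snd measurable_fst) ?_ measurable_const
  refine Measurable.mul ?_ ?_
  · exact ENNReal.measurable_ofReal.comp (by fun_prop)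
  · exact (h1.2.1 n).comp (measurable_const.prodMk (measurable_fst.sub measurable_snd))

theorem wt_meas : Measurable fun q : ℝ × ℝ => wt q.1 q.2 := by
  unfold wt
  exact ENNReal.measurable_ofReal.comp (by fun_prop)

/-- A big first pick. -/
theorem wt_Ph (z R y t : ℝ) (n : ℕ) (hy : 0 < y) (hyR : y < R) :
    wt R y * Ph z (R - y) n t = ENNReal.ofReal (4 / R) * Ph z R n (t + y) := by
  by_cases h : t < R - y
  · have h' : t + y < R := by linarith
    rw [Ph_lt h, Ph_lt h', wt, ← mul_assoc, ← mul_assoc, ← ENNReal.ofReal_mul (by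
      have : 0 < R := hy.trans hyR
      have : 0 < R - y := by linarith
      positivity), ← ENNReal.ofReal_mul (by
      have : 0 < R := hy.trans hyR
      positivity)]
    have e : R - y - t = R - (t + y) := by ring
    rw [e]
    congr 2
    have h1 : R ≠ 0 := (hy.trans hyR).ne'
    have h2 : R - y ≠ 0 := by intro h0; linarith
    field_simp
  · have h' : R ≤ t + y := by linarith [not_lt.1 h]
    rw [Ph_ge (not_lt.1 h), Ph_ge h', mul_zero, mul_zero]

/-- A small first pick. -/
theorem int_small (h1 : claimA1) (h9 : claimA9) (z R t : ℝ) (n : ℕ) (hR : 0 < R) (ht : 0 ≤ t) :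
    ∫⁻ y in Set.Ioo 0 R ∩ Set.Iic z, wt R y * Ph z (R - y) n t ≤
      ENNReal.ofReal ((R - t) / R) * Ph z R (n + 1) t := by
  by_cases h : t < R
  · have hR' : 0 < R - t := by linarith
    have e1 : ∫⁻ y in Set.Ioo 0 R ∩ Set.Iic z, wt R y * Ph z (R - y) n t =
        ∫⁻ y in Set.Ioo 0 (R - t) ∩ Set.Iic z, ENNReal.ofReal (1 / R ^ 4) *
          (ENNReal.ofReal (4 * (R - t - y) ^ 3) * AA z n (R - t - y)) := by
      rw [← lintegral_indicator (measurableSet_Ioo.inter measurableSet_Iic),
        ← lintegral_indicator (measurableSet_Ioo.inter measurableSet_Iic)]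
      apply lintegral_congr
      intro y
      by_cases hy : y ∈ Set.Ioo 0 (R - t) ∩ Set.Iic z
      · have hy' : y ∈ Set.Ioo 0 R ∩ Set.Iic z :=
          ⟨⟨hy.1.1, by linarith [hy.1.2]⟩, hy.2⟩
        rw [Set.indicator_of_mem hy, Set.indicator_of_mem hy']
        have hlt : t < R - y := by linarith [hy.1.2]
        have hy0 : 0 < y := hy.1.1
        rw [wt_Ph z R y t n hy0 (by linarith), Ph_lt (by linarith : t + y < R)]
        have e : R - (t + y) = R - t - y := by ring
        rw [e, ← mul_assoc, ← mul_assoc, ← ENNReal.ofReal_mul (by positivity),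
          ← ENNReal.ofReal_mul (by positivity)]
        congr 2
        field_simp
      · rw [Set.indicator_of_notMem hy]
        by_cases hy' : y ∈ Set.Ioo 0 R ∩ Set.Iic z
        · rw [Set.indicator_of_mem hy']
          have : R - y ≤ t := by
            by_contra hc
            exact hy ⟨⟨hy'.1.1, by linarith [not_le.1 hc]⟩, hy'.2⟩
          rw [Ph_ge this, mul_zero]
        · rw [Set.indicator_of_notMem hy']
    have hm : Measurable fun y => ENNReal.ofReal (4 * (R - t - y) ^ 3) * AA z n (R - t - y) := by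
      refine Measurable.mul (ENNReal.measurable_ofReal.comp (by fun_prop)) ?_
      exact (h1.2.1 n).comp (measurable_const.prodMk (by fun_prop))
    rw [e1, lintegral_const_mul _ hm, h9 n z (R - t) hR', Ph_lt h, ← mul_assoc, ← mul_assoc,
      ← ENNReal.ofReal_mul (by positivity), ← ENNReal.ofReal_mul (by positivity)]
    apply le_of_eq
    congr 2
    field_simp
  · have h0 : ∀ y ∈ Set.Ioo 0 R ∩ Set.Iic z, wt R y * Ph z (R - y) n t = 0 := by
      intro y hy
      rw [Ph_ge (by linarith [not_lt.1 h, hy.1.1]), mul_zero]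
    rw [setLIntegral_congr_fun (measurableSet_Ioo.inter measurableSet_Iic) h0]
    simp

/-- The part with a small first pick. -/
theorem part1 (h1 : claimA1) (h5 : claimA5) (h7 : claimA7) (h9 : claimA9) (i n : ℕ)
    (z R c d : ℝ) (hz : 0 < z) (hR : 0 < R) (hd : 0 ≤ d) :
    ∫⁻ y in Set.Ioo 0 R ∩ Set.Iic z, wt R y * Wo z i c (fun s => Ph z (R - y) n (s + d)) ≤
      Wo z i c (fun s => ENNReal.ofReal ((R - (s + d)) / R) * Ph z R (n + 1) (s + d)) := by
  have hm : ∀ y : ℝ, Measurable fun s : ℝ => Ph z (R - y) n (s + d) := fun y =>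
    (Ph_meas h1 z n).comp (measurable_const.prodMk (by fun_prop))
  have e1 : ∫⁻ y in Set.Ioo 0 R ∩ Set.Iic z, wt R y * Wo z i c (fun s => Ph z (R - y) n (s + d)) =
      ∫⁻ y in Set.Ioo 0 R ∩ Set.Iic z, Wo z i c (fun s => wt R y * Ph z (R - y) n (s + d)) := by
    apply lintegral_congr
    intro y
    rw [(h5 i z c hz.le).1 (wt R y) _ (hm y)]
  rw [e1, ← h7 i z c _ (fun s y => wt R y * Ph z (R - y) n (s + d))
    (measurableSet_Ioo.inter measurableSet_Iic)]
  · refine (h5 i z c hz.le).2.2 _ _ fun s hs _ => ?_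
    exact int_small h1 h9 z R (s + d) n hR (by
      have : 0 ≤ (i : ℝ) * z := by positivity
      linarith)
  · refine Measurable.mul ?_ ?_
    · exact wt_meas.comp (measurable_const.prodMk measurable_snd)
    · exact (Ph_meas h1 z n).comp ((measurable_const.sub measurable_snd).prodMk
        (measurable_fst.add measurable_const))

/-- The part with a big first pick. -/
theorem part2 (h1 : claimA1) (h5 : claimA5) (h6 : claimA6) (i n : ℕ)
    (z R c d : ℝ) (hz : 0 < z) :
    ∫⁻ y in Set.Ioo 0 R ∩ Set.Ioi z, wt R y * Wo z i (c - y) (fun s => Ph z (R - y) n (s + d)) ≤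
      ENNReal.ofReal (4 / R) *
        Wo z (i + 1) c (fun s => ENNReal.ofReal s * Ph z R n (s + d)) := by
  have hm : ∀ y : ℝ, Measurable fun s : ℝ => Ph z (R - y) n (s + d) := fun y =>
    (Ph_meas h1 z n).comp (measurable_const.prodMk (by fun_prop))
  have hm2 : ∀ y : ℝ, Measurable fun s : ℝ => Ph z R n (s + y + d) := fun y =>
    (Ph_meas h1 z n).comp (measurable_const.prodMk (by fun_prop))
  have hm3 : Measurable fun s : ℝ => Ph z R n (s + d) :=
    (Ph_meas h1 z n).comp (measurable_const.prodMk (by fun_prop))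
  have e1 : ∫⁻ y in Set.Ioo 0 R ∩ Set.Ioi z,
        wt R y * Wo z i (c - y) (fun s => Ph z (R - y) n (s + d)) =
      ∫⁻ y in Set.Ioo 0 R ∩ Set.Ioi z,
        ENNReal.ofReal (4 / R) * Wo z i (c - y) (fun s => Ph z R n (s + y + d)) := by
    apply setLIntegral_congr_fun (measurableSet_Ioo.inter measurableSet_Ioi)
    intro y hy
    simp only
    rw [← (h5 i z (c - y) hz.le).1 (wt R y) _ (hm y),
      ← (h5 i z (c - y) hz.le).1 (ENNReal.ofReal (4 / R)) _ (hm2 y)]
    congr 1
    funext s
    rw [wt_Ph z R y (s + d) n hy.1.1 hy.1.2]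
    congr 2
    ring
  rw [e1, lintegral_const_mul, h6 i z c hz.le _ hm3]
  · gcongr
    exact Set.inter_subset_right
  · refine h1.2.2.2 ℝ i (fun _ => z) (fun y => c - y) (fun y s => Ph z R n (s + y + d))
      measurable_const (by fun_prop) ?_
    exact (Ph_meas h1 z n).comp (measurable_const.prodMk (by fun_prop))

/-- The induction. -/
theorem core (h1 : claimA1) (h5 : claimA5) (h6 : claimA6) (h7 : claimA7) (h9 : claimA9)
    (z d : ℝ) (K : ℝ≥0∞) (hz : 0 < z) (hd : 0 ≤ d) (L : ℕ → ℕ → ℝ → ℝ → ℝ≥0∞)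
    (hzero : ∀ k i R c, k < i → L k i R c = 0)
    (hbase : ∀ R c, 0 < R → L 0 0 R c ≤ K * Wo z 0 c (fun s => Ph z R 0 (s + d)))
    (hstep0 : ∀ k R c, 0 < R → L (k + 1) 0 R c ≤
      K * Wo z 0 c (fun s => ENNReal.ofReal (d / R) * Ph z R (k + 1) (s + d)) +
      ∫⁻ y in Set.Ioo 0 R ∩ Set.Iic z, wt R y * L k 0 (R - y) c)
    (hstep : ∀ k i R c, 0 < R → L (k + 1) (i + 1) R c ≤
      K * 4 ^ (i + 1) * Wo z (i + 1) c
        (fun s => ENNReal.ofReal (d / R) * Ph z R (k - i) (s + d)) +
      (∫⁻ y in Set.Ioo 0 R ∩ Set.Iic z, wt R y * L k (i + 1) (R - y) c) +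
      ∫⁻ y in Set.Ioo 0 R ∩ Set.Ioi z, wt R y * L k i (R - y) (c - y)) :
    ∀ k i R c, 0 < R → L k i R c ≤ K * 4 ^ i * Wo z i c (fun s => Ph z R (k - i) (s + d)) := by
  have hm3 : ∀ (R : ℝ) (n : ℕ), Measurable fun s : ℝ => Ph z R n (s + d) := fun R n =>
    (Ph_meas h1 z n).comp (measurable_const.prodMk (by fun_prop))
  intro k
  induction k with
  | zero =>
    intro i R c hR
    rcases Nat.eq_zero_or_pos i with rfl | hi
    · have := hbase R c hR
      simpa using this
    · rw [hzero 0 i R c hi]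
      exact zero_le
  | succ k ih =>
    intro i R c hR
    -- the bound for the part with a small first pick
    have hsmall : ∀ i, i ≤ k → ∫⁻ y in Set.Ioo 0 R ∩ Set.Iic z, wt R y * L k i (R - y) c ≤
        K * 4 ^ i * Wo z i c (fun s => ENNReal.ofReal ((R - (s + d)) / R) *
          Ph z R (k + 1 - i) (s + d)) := by
      intro i hi
      have hn : k - i + 1 = k + 1 - i := by omega
      rw [← hn]
      have h2 : ∫⁻ y in Set.Ioo 0 R ∩ Set.Iic z, wt R y * L k i (R - y) c ≤
          ∫⁻ y in Set.Ioo 0 R ∩ Set.Iic z,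
            K * 4 ^ i * (wt R y * Wo z i c (fun s => Ph z (R - y) (k - i) (s + d))) := by
        apply setLIntegral_mono' (measurableSet_Ioo.inter measurableSet_Iic)
        intro y hy
        calc wt R y * L k i (R - y) c ≤
            wt R y * (K * 4 ^ i * Wo z i c (fun s => Ph z (R - y) (k - i) (s + d))) := by
              gcongr
              exact ih i (R - y) c (by linarith [hy.1.2])
          _ = _ := by ring
      refine h2.trans ?_
      rw [lintegral_const_mul]
      · gcongr
        exact part1 h1 h5 h7 h9 i (k - i) z R c d hz hR hd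
      · refine Measurable.mul ?_ ?_
        · exact wt_meas.comp (measurable_const.prodMk measurable_id)
        · refine h1.2.2.2 ℝ i (fun _ => z) (fun y => c)
            (fun y s => Ph z (R - y) (k - i) (s + d)) measurable_const (by fun_prop) ?_
          exact (Ph_meas h1 z _).comp (Measurable.prodMk (by fun_prop) (by fun_prop))
    have hbig : ∀ i, ∫⁻ y in Set.Ioo 0 R ∩ Set.Ioi z, wt R y * L k i (R - y) (c - y) ≤
        K * 4 ^ i * (ENNReal.ofReal (4 / R) *
          Wo z (i + 1) c (fun s => ENNReal.ofReal s * Ph z R (k - i) (s + d))) := by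
      intro i
      have h2 : ∫⁻ y in Set.Ioo 0 R ∩ Set.Ioi z, wt R y * L k i (R - y) (c - y) ≤
          ∫⁻ y in Set.Ioo 0 R ∩ Set.Ioi z,
            K * 4 ^ i * (wt R y * Wo z i (c - y) (fun s => Ph z (R - y) (k - i) (s + d))) := by
        apply setLIntegral_mono' (measurableSet_Ioo.inter measurableSet_Ioi)
        intro y hy
        calc wt R y * L k i (R - y) (c - y) ≤
            wt R y * (K * 4 ^ i * Wo z i (c - y) (fun s => Ph z (R - y) (k - i) (s + d))) := by
              gcongr
              exact ih i (R - y) (c - y) (by linarith [hy.1.2])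
          _ = _ := by ring
      refine h2.trans ?_
      rw [lintegral_const_mul]
      · gcongr
        exact part2 h1 h5 h6 i (k - i) z R c d hz
      · refine Measurable.mul ?_ ?_
        · exact wt_meas.comp (measurable_const.prodMk measurable_id)
        · refine h1.2.2.2 ℝ i (fun _ => z) (fun y => c - y)
            (fun y s => Ph z (R - y) (k - i) (s + d)) measurable_const (by fun_prop) ?_
          exact (Ph_meas h1 z _).comp (Measurable.prodMk (by fun_prop) (by fun_prop))
    -- the sum of the coefficients is one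
    have hsum : ∀ s : ℝ, 0 ≤ s → s + d < R →
        ENNReal.ofReal (d / R) + ENNReal.ofReal ((R - (s + d)) / R) +
          ENNReal.ofReal (1 / R) * ENNReal.ofReal s = 1 := by
      intro s hs hsd
      rw [← ENNReal.ofReal_mul (by positivity), ← ENNReal.ofReal_add (by positivity)
        (div_nonneg (by linarith) hR.le), ← ENNReal.ofReal_add (by
          have : 0 ≤ (R - (s + d)) / R := div_nonneg (by linarith) hR.le
          positivity) (by positivity), ← ENNReal.ofReal_one]
      congr 1
      field_simp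
      ring
    match i with
    | 0 =>
      refine (hstep0 k R c hR).trans ?_
      have h3 := hsmall 0 (Nat.zero_le k)
      rw [pow_zero, mul_one, Nat.sub_zero] at h3
      rw [pow_zero, mul_one, Nat.sub_zero]
      refine (add_le_add_right h3 _).trans ?_
      rw [← mul_add]
      gcongr
      rw [← (h5 0 z c hz.le).2.1]
      · refine (h5 0 z c hz.le).2.2 _ _ fun s hs _ => ?_
        have hs0 : 0 ≤ s := by simpa using hs
        rw [← add_mul]
        by_cases hsd : s + d < R
        · have h4 := hsum s hs0 hsd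
          calc _ ≤ 1 * Ph z R (k + 1) (s + d) := by
                gcongr
                rw [← h4]
                exact le_self_add
            _ = _ := one_mul _
        · rw [Ph_ge (not_lt.1 hsd), mul_zero]
      · exact Measurable.mul measurable_const (hm3 R _)
      · exact Measurable.mul (ENNReal.measurable_ofReal.comp (by fun_prop)) (hm3 R _)
    | i + 1 =>
      refine (hstep k i R c hR).trans ?_
      have hk : k + 1 - (i + 1) = k - i := by omega
      have h3 : ∫⁻ y in Set.Ioo 0 R ∩ Set.Iic z, wt R y * L k (i + 1) (R - y) c ≤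
          K * 4 ^ (i + 1) * Wo z (i + 1) c (fun s => ENNReal.ofReal ((R - (s + d)) / R) *
            Ph z R (k - i) (s + d)) := by
        by_cases hi : i + 1 ≤ k
        · have := hsmall (i + 1) hi
          rwa [hk] at this
        · have h0 : ∀ y, wt R y * L k (i + 1) (R - y) c = 0 := by
            intro y
            rw [hzero k (i + 1) _ _ (by omega), mul_zero]
          simp only [h0, lintegral_zero]
          exact zero_le
      have h4 := hbig i
      have h5' := (h5 (i + 1) z c hz.le).1 (ENNReal.ofReal (1 / R))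
        (fun s => ENNReal.ofReal s * Ph z R (k - i) (s + d))
        (Measurable.mul ENNReal.measurable_ofReal (hm3 R _))
      have h6' : K * 4 ^ i * (ENNReal.ofReal (4 / R) *
          Wo z (i + 1) c (fun s => ENNReal.ofReal s * Ph z R (k - i) (s + d))) =
          K * 4 ^ (i + 1) * Wo z (i + 1) c
            (fun s => ENNReal.ofReal (1 / R) * (ENNReal.ofReal s * Ph z R (k - i) (s + d))) := by
        rw [h5']
        have : ENNReal.ofReal (4 / R) = 4 * ENNReal.ofReal (1 / R) := by
          rw [div_eq_mul_one_div, ENNReal.ofReal_mul (by norm_num)]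
          simp
        rw [this]
        ring
      rw [h6'] at h4
      refine (add_le_add (add_le_add_right h3 _) h4).trans ?_
      rw [← mul_add, ← mul_add, hk]
      gcongr
      rw [← (h5 (i + 1) z c hz.le).2.1, ← (h5 (i + 1) z c hz.le).2.1]
      · refine (h5 (i + 1) z c hz.le).2.2 _ _ fun s hs _ => ?_
        have hs0 : 0 ≤ s := le_trans (by positivity) hs
        rw [← mul_assoc, ← add_mul, ← add_mul]
        by_cases hsd : s + d < R
        · rw [hsum s hs0 hsd, one_mul]
        · rw [Ph_ge (not_lt.1 hsd), mul_zero]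
      · exact Measurable.add (Measurable.mul measurable_const (hm3 R _))
          (Measurable.mul (ENNReal.measurable_ofReal.comp (by fun_prop)) (hm3 R _))
      · exact Measurable.mul measurable_const
          (Measurable.mul ENNReal.measurable_ofReal (hm3 R _))
      · exact Measurable.mul measurable_const (hm3 R _)
      · exact Measurable.mul (ENNReal.measurable_ofReal.comp (by fun_prop)) (hm3 R _)

/-! ### peeling off the first pick -/

theorem peel {l : ℕ} (F : (Fin (l + 1) → ℝ) → ℝ≥0∞) (hF : Measurable F) :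
    ∫⁻ x, F x = ∫⁻ t : ℝ, ∫⁻ y : Fin l → ℝ, F (Fin.cons t y) := by
  have hmp := (volume_preserving_piFinSuccAbove (fun _ : Fin (l + 1) => ℝ) 0).symm
  have h1 : ∫⁻ x, F x = ∫⁻ p : ℝ × (Fin l → ℝ), F (Fin.cons p.1 p.2) := by
    rw [← hmp.lintegral_comp_emb (MeasurableEquiv.measurableEmbedding _)]
    refine lintegral_congr fun p => ?_
    congr 1
    funext m
    refine Fin.cases ?_ (fun i => ?_) m
    · simp [MeasurableEquiv.piFinSuccAbove]
    · simp [MeasurableEquiv.piFinSuccAbove]
  have hm : Measurable (fun p : ℝ × (Fin l → ℝ) => F (Fin.cons p.1 p.2)) := by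
    refine hF.comp (measurable_pi_iff.2 fun m => ?_)
    refine Fin.cases ?_ (fun i => ?_) m
    · simp only [Fin.cons_zero]
      exact measurable_fst
    · simp only [Fin.cons_succ]
      exact (measurable_pi_apply i).comp measurable_snd
  rw [h1, Measure.volume_eq_prod, lintegral_prod _ hm.aemeasurable]

theorem Ind_meas (h1 : claimA1) (k i : ℕ) (z c : ℝ) :
    Measurable fun x : Fin k → ℝ => Ind z i c x :=
  (h1.2.2.1 k i).comp (measurable_const.prodMk (measurable_const.prodMk measurable_id))

theorem card_cons {k : ℕ} (z y : ℝ) (x : Fin k → ℝ) :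
    (Finset.univ.filter fun l => z < (Fin.cons y x : Fin (k + 1) → ℝ) l).card =
      (if z < y then 1 else 0) + (Finset.univ.filter fun l => z < x l).card := by
  rw [Finset.card_filter, Fin.sum_univ_succ, Finset.card_filter]
  simp only [Fin.cons_zero, Fin.cons_succ]

theorem sum_cons {k : ℕ} (z y : ℝ) (x : Fin k → ℝ) :
    ∑ l ∈ Finset.univ.filter (fun l => z < (Fin.cons y x : Fin (k + 1) → ℝ) l),
      (Fin.cons y x : Fin (k + 1) → ℝ) l =
      (if z < y then y else 0) + ∑ l ∈ Finset.univ.filter (fun l => z < x l), x l := by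
  rw [Finset.sum_filter, Fin.sum_univ_succ, Finset.sum_filter]
  simp only [Fin.cons_zero, Fin.cons_succ]

theorem Ind_small {k : ℕ} (z c y : ℝ) (i : ℕ) (x : Fin k → ℝ) (hy : y ≤ z) :
    Ind z i c (Fin.cons y x : Fin (k + 1) → ℝ) = Ind z i c x := by
  unfold Ind
  rw [card_cons, sum_cons, if_neg (not_lt.2 hy), if_neg (not_lt.2 hy), zero_add, zero_add]

theorem Ind_big {k : ℕ} (z c y : ℝ) (i : ℕ) (x : Fin k → ℝ) (hy : z < y) :
    Ind z (i + 1) c (Fin.cons y x : Fin (k + 1) → ℝ) = Ind z i (c - y) x := by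
  unfold Ind
  rw [card_cons, sum_cons, if_pos hy, if_pos hy]
  have e : (1 + (Finset.univ.filter fun l => z < x l).card = i + 1 ∧
      y + ∑ l ∈ Finset.univ.filter (fun l => z < x l), x l < c) ↔
      ((Finset.univ.filter fun l => z < x l).card = i ∧
      ∑ l ∈ Finset.univ.filter (fun l => z < x l), x l < c - y) := by
    constructor
    · rintro ⟨h1, h2⟩
      exact ⟨by omega, by linarith⟩
    · rintro ⟨h1, h2⟩
      exact ⟨by omega, by linarith⟩
  simp only [e]

theorem Ind_big_zero {k : ℕ} (z c y : ℝ) (x : Fin k → ℝ) (hy : z < y) :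
    Ind z 0 c (Fin.cons y x : Fin (k + 1) → ℝ) = 0 := by
  unfold Ind
  rw [card_cons, if_pos hy, if_neg]
  rintro ⟨h1, -⟩
  omega

theorem Ind_zero {k i : ℕ} (z c : ℝ) (x : Fin k → ℝ) (h : k < i) : Ind z i c x = 0 := by
  unfold Ind
  rw [if_neg]
  rintro ⟨h1, -⟩
  have h2 := Finset.card_filter_le (Finset.univ : Finset (Fin k)) (fun l => z < x l)
  rw [h1, Finset.card_univ, Fintype.card_fin] at h2
  omega

/-- The first pick is small or big. -/
theorem split (h1 : claimA1) {k : ℕ} (i : ℕ) (z c R : ℝ) (F : (Fin (k + 1) → ℝ) → ℝ≥0∞)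
    (hF : Measurable F) (G : ℝ → (Fin k → ℝ) → ℝ≥0∞) (hG : ∀ r, Measurable (G r))
    (hFG : ∀ (y : ℝ) (x : Fin k → ℝ), F (Fin.cons y x) =
      (Set.Ioo 0 R).indicator (fun y => wt R y * G (R - y) x) y) :
    ∫⁻ x, Ind z i c x * F x =
      (∫⁻ y in Set.Ioo 0 R ∩ Set.Iic z, wt R y * ∫⁻ x, Ind z i c x * G (R - y) x) +
      ∫⁻ y in Set.Ioo 0 R ∩ Set.Ioi z,
        wt R y * ∫⁻ x : Fin k → ℝ, Ind z i c (Fin.cons y x : Fin (k + 1) → ℝ) * G (R - y) x := by
  have hm : ∀ y : ℝ, Measurable fun x : Fin k → ℝ =>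
      Ind z i c (Fin.cons y x : Fin (k + 1) → ℝ) := by
    intro y
    refine (Ind_meas h1 (k + 1) i z c).comp (measurable_pi_iff.2 fun m => ?_)
    refine Fin.cases ?_ (fun i => ?_) m
    · simp only [Fin.cons_zero]
      exact measurable_const
    · simp only [Fin.cons_succ]
      exact measurable_pi_apply i
  have e1 : ∫⁻ x, Ind z i c x * F x = ∫⁻ y in Set.Ioo 0 R,
      wt R y * ∫⁻ x : Fin k → ℝ, Ind z i c (Fin.cons y x : Fin (k + 1) → ℝ) * G (R - y) x := by
    rw [peel (fun x => Ind z i c x * F x) ((Ind_meas h1 (k + 1) i z c).mul hF),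
      ← lintegral_indicator measurableSet_Ioo]
    apply lintegral_congr
    intro y
    by_cases hy : y ∈ Set.Ioo 0 R
    · have hmm : Measurable fun x : Fin k → ℝ =>
          Ind z i c (Fin.cons y x : Fin (k + 1) → ℝ) * G (R - y) x := (hm y).mul (hG _)
      rw [Set.indicator_of_mem hy, ← lintegral_const_mul _ hmm]
      apply lintegral_congr
      intro x
      rw [hFG, Set.indicator_of_mem hy]
      ring
    · rw [Set.indicator_of_notMem hy]
      have : ∀ x : Fin k → ℝ, Ind z i c (Fin.cons y x : Fin (k + 1) → ℝ) *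
          F (Fin.cons y x) = 0 := by
        intro x
        rw [hFG, Set.indicator_of_notMem hy, mul_zero]
      simp only [this, lintegral_zero]
  rw [e1]
  have e2 : Set.Ioo 0 R = (Set.Ioo 0 R ∩ Set.Iic z) ∪ (Set.Ioo 0 R ∩ Set.Ioi z) := by
    rw [← Set.inter_union_distrib_left, Set.Iic_union_Ioi, Set.inter_univ]
  have e3 : Disjoint (Set.Ioo 0 R ∩ Set.Iic z) (Set.Ioo 0 R ∩ Set.Ioi z) := by
    rw [Set.disjoint_left]
    rintro y ⟨-, h⟩ ⟨-, h'⟩
    exact absurd (show z < y from h') (not_lt.2 h)
  conv_lhs => rw [e2]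
  rw [lintegral_union (measurableSet_Ioo.inter measurableSet_Ioi) e3]
  congr 1
  apply setLIntegral_congr_fun (measurableSet_Ioo.inter measurableSet_Iic)
  intro y hy
  simp only
  congr 1
  apply lintegral_congr
  intro x
  rw [Ind_small z c y i x hy.2]

theorem PW_cons {k : ℕ} (R y : ℝ) (x : Fin k → ℝ) :
    PW (k + 1) R (Fin.cons y x : Fin (k + 1) → ℝ) =
      (Set.Ioo 0 R).indicator (fun y => wt R y * PW k (R - y) x) y := by
  unfold PW
  rw [Fin.cons_zero, Fin.tail_cons]
  by_cases h : y ∈ Set.Ioo 0 R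
  · rw [Set.indicator_of_mem h, if_pos ⟨h.1, h.2⟩]
    cases k <;> rfl
  · rw [Set.indicator_of_notMem h, if_neg]
    rintro ⟨h1, h2⟩
    exact h ⟨h1, h2⟩

theorem PW_meas (h1 : claimA1) (k : ℕ) (R : ℝ) : Measurable fun x : Fin k → ℝ => PW k R x :=
  (h1.1 k).comp (measurable_const.prodMk measurable_id)

end IA11

theorem prfA11 (h1 : claimA1) (h5 : claimA5) (h6 : claimA6) (h7 : claimA7) (h9 : claimA9) :
    claimA11 := by
  intro k i z R c hz hR
  have key := IA11.core h1 h5 h6 h7 h9 z 0 1 hz le_rfl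
    (fun k i R c => ∫⁻ x : Fin k → ℝ, Ind z i c x * PW k R x) ?_ ?_ ?_ ?_ k i R c hR
  · simp only [one_mul, add_zero] at key
    exact key
  · intro k i R c hki
    change ∫⁻ x : Fin k → ℝ, Ind z i c x * PW k R x = 0
    simp only [IA11.Ind_zero z c _ hki, zero_mul, lintegral_zero]
  · intro R c hR
    change ∫⁻ x : Fin 0 → ℝ, Ind z 0 c x * PW 0 R x ≤ _
    rw [one_mul]
    simp only [PW, mul_one]
    rw [lintegral_unique]
    have e : (volume : Measure (Fin 0 → ℝ)) Set.univ = 1 := by
      rw [volume_pi]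
      exact Measure.pi_empty_univ _
    rw [e, mul_one]
    unfold Ind Wo
    by_cases hc : 0 < c
    · rw [if_pos hc]
      change _ ≤ IA11.Ph z R 0 (0 + 0)
      rw [IA11.Ph_lt (by linarith : (0 : ℝ) + 0 < R)]
      have e2 : (R - (0 + 0)) / R = 1 := by
        rw [add_zero, sub_zero, div_self hR.ne']
      rw [e2]
      simp [AA, hc]
    · rw [if_neg hc, if_neg]
      rintro ⟨-, h⟩
      simp at h
      exact hc h
  · intro k R c hR
    change ∫⁻ x : Fin (k + 1) → ℝ, Ind z 0 c x * PW (k + 1) R x ≤ _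
    rw [IA11.split h1 0 z c R (PW (k + 1) R) (IA11.PW_meas h1 _ R) (PW k)
      (IA11.PW_meas h1 k) (IA11.PW_cons R)]
    have h0 : ∫⁻ y in Set.Ioo 0 R ∩ Set.Ioi z, wt R y *
        ∫⁻ x : Fin k → ℝ, Ind z 0 c (Fin.cons y x : Fin (k + 1) → ℝ) * PW k (R - y) x = 0 := by
      rw [setLIntegral_congr_fun (measurableSet_Ioo.inter measurableSet_Ioi)
        (g := fun _ => 0)]
      · simp
      · intro y hy
        simp only [IA11.Ind_big_zero z c y _ hy.2, zero_mul, lintegral_zero, mul_zero]
    rw [h0, add_zero]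
    exact le_add_self
  · intro k i R c hR
    change ∫⁻ x : Fin (k + 1) → ℝ, Ind z (i + 1) c x * PW (k + 1) R x ≤ _
    rw [IA11.split h1 (i + 1) z c R (PW (k + 1) R) (IA11.PW_meas h1 _ R) (PW k)
      (IA11.PW_meas h1 k) (IA11.PW_cons R), add_assoc]
    refine le_trans (le_of_eq ?_) le_add_self
    congr 1
    apply setLIntegral_congr_fun (measurableSet_Ioo.inter measurableSet_Ioi)
    intro y hy
    simp only [IA11.Ind_big z c y i _ hy.2]

end Pool.Agent.Work.MP_122e00_nt.Four
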